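import Pool.Agent.Lib.MP_fe4422_gt.Defs

/-!
# Chainability from maps to the line with small fibres
-/

namespace Pool.Agent.MP_fe4422_gt

open Set Filter Topology

theorem chainable_of_maps {X : Type} [MetricSpace X] [CompactSpace X] [ConnectedSpace X]
    (h : ∀ ε : ℝ, 0 < ε → ∃ g : X → ℝ, Continuous g ∧ ∀ x y, g x = g y → dist x y < ε) :
    IsChainableContinuum X := by
  refine ⟨inferInstance, inferInstance, fun ε hε => ?_⟩
  obtain ⟨g, hg, hfib⟩ := h (ε / 2) (by positivity)
  -- a modulus
  obtain ⟨δ, hδ, hmod⟩ : ∃ δ : ℝ, 0 < δ ∧ ∀ x y, |g x - g y| < δ → dist x y < ε / 2 := by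
    set K : Set (X × X) := {p | ε / 2 ≤ dist p.1 p.2} with hK
    have hKc : IsCompact K := (isClosed_le continuous_const continuous_dist).isCompact
    rcases K.eq_empty_or_nonempty with he | hne
    · refine ⟨1, one_pos, fun x y _ => ?_⟩
      by_contra hc
      have : (x, y) ∈ K := not_lt.mp hc
      rw [he] at this
      exact this
    · have hcont : Continuous (fun p : X × X => |g p.1 - g p.2|) :=
        ((hg.comp continuous_fst).sub (hg.comp continuous_snd)).abs
      obtain ⟨p, hp, hmin⟩ := hKc.exists_isMinOn hne hcont.continuousOn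
      refine ⟨|g p.1 - g p.2|, ?_, fun x y hxy => ?_⟩
      · rw [abs_pos, sub_ne_zero]
        intro he
        have := hfib _ _ he
        exact absurd hp (not_le.mpr this)
      · by_contra hc
        have hm : (x, y) ∈ K := not_lt.mp hc
        exact absurd (hmin hm) (not_le.mpr hxy)
  -- the image is an interval
  obtain ⟨xa, hxa⟩ : ∃ xa, ∀ x, g xa ≤ g x := by
    obtain ⟨xa, -, h1⟩ := isCompact_univ.exists_isMinOn (univ_nonempty (α := X)) hg.continuousOn
    exact ⟨xa, fun x => h1 (mem_univ x)⟩
  obtain ⟨xb, hxb⟩ : ∃ xb, ∀ x, g x ≤ g xb := by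
    obtain ⟨xb, -, h1⟩ := isCompact_univ.exists_isMaxOn (univ_nonempty (α := X)) hg.continuousOn
    exact ⟨xb, fun x => h1 (mem_univ x)⟩
  set a := g xa with ha
  set b := g xb with hb
  have hab : a ≤ b := hxa xb
  have hsurj : ∀ c, a ≤ c → c ≤ b → ∃ x, g x = c := by
    intro c h1 h2
    exact mem_range_of_exists_le_of_exists_ge hg ⟨xa, h1⟩ ⟨xb, h2⟩
  rcases hab.eq_or_lt with he | hlt
  · -- constant map
    refine ⟨1, fun _ => univ, fun _ => isOpen_univ, by simp [iUnion_const], fun _ => ?_, ?_⟩
    · have : Metric.diam (univ : Set X) ≤ ε / 2 := by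
        apply Metric.diam_le_of_forall_dist_le (by positivity)
        intro x _ y _
        apply (hfib x y ?_).le
        have := hxa x; have := hxa y; have := hxb x; have := hxb y
        linarith
      linarith
    · intro i j
      have hij : i = j := Subsingleton.elim i j
      subst hij
      simp
  · obtain ⟨m, hm⟩ := exists_nat_gt ((b - a) / (δ / 2))
    have hm0 : (0 : ℝ) < m := lt_of_le_of_lt (by have := sub_pos.mpr hlt; positivity) hm
    have hmh : (b - a) / m < δ / 2 := by
      rw [div_lt_iff₀ (by positivity)] at hm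
      rw [div_lt_iff₀ hm0]
      linarith
    set w := (b - a) / m with hw
    have hwpos : 0 < w := div_pos (sub_pos.mpr hlt) hm0
    have hwm : (m : ℝ) * w = b - a := by rw [hw]; field_simp
    refine ⟨m + 1, fun i => g ⁻¹' Ioo (a + ((i : ℕ) : ℝ) * w - 3 / 4 * w)
      (a + ((i : ℕ) : ℝ) * w + 3 / 4 * w), fun i => isOpen_Ioo.preimage hg, ?_, ?_, ?_⟩
    · -- cover
      rw [eq_univ_iff_forall]
      intro x
      have h1 := hxa x
      have h2 := hxb x
      set r := (g x - a) / w + 1 / 2 with hr
      have hr0 : 0 ≤ r := by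
        have : 0 ≤ (g x - a) / w := div_nonneg (by linarith) hwpos.le
        linarith
      have hfl := Nat.floor_le hr0
      have hfl2 := Nat.lt_floor_add_one r
      have hrm : r ≤ m + 1 / 2 := by
        have : (g x - a) / w ≤ m := by rw [div_le_iff₀ hwpos]; linarith
        linarith
      have hlt' : ⌊r⌋₊ < m + 1 := by
        rw [Nat.floor_lt hr0]; push_cast; linarith
      rw [mem_iUnion]
      refine ⟨⟨⌊r⌋₊, hlt'⟩, ?_⟩
      have e : (g x - a) = (r - 1 / 2) * w := by rw [hr]; field_simp; ring
      constructor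
      · simp only
        nlinarith
      · simp only
        nlinarith
    · intro i
      have : Metric.diam (g ⁻¹' Ioo (a + ((i : ℕ) : ℝ) * w - 3 / 4 * w)
          (a + ((i : ℕ) : ℝ) * w + 3 / 4 * w)) ≤ ε / 2 := by
        apply Metric.diam_le_of_forall_dist_le (by positivity)
        intro x hx y hy
        apply (hmod x y ?_).le
        rw [abs_lt]
        constructor <;> linarith [hx.1, hx.2, hy.1, hy.2]
      linarith
    · intro i j
      constructor
      · rintro ⟨x, hx, hy⟩
        have h1 : (((i : ℕ) : ℝ) - ((j : ℕ) : ℝ)) * w < 3 / 2 * w := by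
          linarith [hx.1, hx.2, hy.1, hy.2]
        have h2 : -(3 / 2 * w) < (((i : ℕ) : ℝ) - ((j : ℕ) : ℝ)) * w := by
          linarith [hx.1, hx.2, hy.1, hy.2]
        have h3 : (((i : ℕ) : ℝ) - ((j : ℕ) : ℝ)) < 3 / 2 := lt_of_mul_lt_mul_right h1 hwpos.le
        have h4 : -(3 / 2) < (((i : ℕ) : ℝ) - ((j : ℕ) : ℝ)) := by
          by_contra hc
          nlinarith
        have h5 : (((i : ℕ) : ℤ) - ((j : ℕ) : ℤ)) < 2 := by
          have : ((((i : ℕ) : ℤ) - ((j : ℕ) : ℤ) : ℤ) : ℝ) < 2 := by push_cast; linarith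
          exact_mod_cast this
        have h6 : -2 < (((i : ℕ) : ℤ) - ((j : ℕ) : ℤ)) := by
          have : (-2 : ℝ) < ((((i : ℕ) : ℤ) - ((j : ℕ) : ℤ) : ℤ) : ℝ) := by push_cast; linarith
          exact_mod_cast this
        rw [abs_le]; omega
      · intro hij
        -- symmetric helper
        have key : ∀ i j : ℕ, i ≤ m → j ≤ m → i ≤ j → j ≤ i + 1 → ∃ x,
            (a + (i : ℝ) * w - 3 / 4 * w < g x ∧ g x < a + (i : ℝ) * w + 3 / 4 * w) ∧
            (a + (j : ℝ) * w - 3 / 4 * w < g x ∧ g x < a + (j : ℝ) * w + 3 / 4 * w) := by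
          intro i j hi hj h1 h2
          have hi' : (i : ℝ) ≤ m := by exact_mod_cast hi
          have hj' : (j : ℝ) ≤ m := by exact_mod_cast hj
          rcases Nat.eq_or_lt_of_le h1 with h3 | h3
          · subst h3
            obtain ⟨x, hx⟩ := hsurj (a + (i : ℝ) * w) (by nlinarith [Nat.cast_nonneg (α := ℝ) i])
              (by nlinarith)
            exact ⟨x, ⟨by linarith, by linarith⟩, ⟨by linarith, by linarith⟩⟩
          · have h4 : j = i + 1 := by omega
            subst h4
            push_cast at hj'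
            obtain ⟨x, hx⟩ := hsurj (a + (i : ℝ) * w + w / 2)
              (by nlinarith [Nat.cast_nonneg (α := ℝ) i]) (by nlinarith)
            push_cast
            exact ⟨x, ⟨by linarith, by linarith⟩, ⟨by linarith, by linarith⟩⟩
        have hi : (i : ℕ) ≤ m := by omega
        have hj : (j : ℕ) ≤ m := by omega
        rw [abs_le] at hij
        rcases le_total (i : ℕ) (j : ℕ) with h1 | h1
        · obtain ⟨x, hx1, hx2⟩ := key i j hi hj h1 (by omega)
          exact ⟨x, hx1, hx2⟩
        · obtain ⟨x, hx1, hx2⟩ := key j i hj hi h1 (by omega)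
          exact ⟨x, hx2, hx1⟩

end Pool.Agent.MP_fe4422_gt
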