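import Pool.Agent.Lib.MP_fe4422_gt.Defs

/-!
# Parametrization of an invariant line from a linear local piece

If `h` is a diffeomorphism of the plane which multiplies the vectors `s • e`, `|s| ≤ r`, by `κ ≥ 2`,
then `crv` parametrizes the set of points whose backward orbit under `h` converges to `0`.
-/

namespace Pool.Agent.MP_fe4422_gt

open Set Filter Topology
open scoped ContDiff

/-- the extended curve -/
noncomputable def crv (h : ℝ × ℝ → ℝ × ℝ) (e : ℝ × ℝ) (κ r : ℝ) (t : ℝ) : ℝ × ℝ :=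
  h^[⌈|t| / r⌉₊] ((t / κ ^ ⌈|t| / r⌉₊) • e)

section

variable {h : ℝ × ℝ ≃ ℝ × ℝ} {e : ℝ × ℝ} {κ r : ℝ}

theorem crv_stable (hκ : 2 ≤ κ) (hlin : ∀ s, |s| ≤ r → h (s • e) = (κ * s) • e) {t : ℝ} {n : ℕ}
    (ht : |t| ≤ r * κ ^ (n + 1)) {m : ℕ} (hm : n ≤ m) (hr : 0 < r) :
    h^[m] ((t / κ ^ m) • e) = h^[n] ((t / κ ^ n) • e) := by
  induction m, hm using Nat.le_induction with
  | base => rfl
  | succ m hm ih =>
    rw [Function.iterate_succ_apply, hlin, ← ih]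
    · congr 2
      rw [pow_succ]
      field_simp
    · rw [abs_div, abs_of_pos (by positivity : (0 : ℝ) < κ ^ (m + 1)),
        div_le_iff₀ (by positivity)]
      refine ht.trans (mul_le_mul_of_nonneg_left ?_ hr.le)
      exact pow_le_pow_right₀ (by linarith) (by omega)

theorem exists_n (hκ : 2 ≤ κ) (hr : 0 < r) (t : ℝ) {n : ℕ} (hn : ⌈|t| / r⌉₊ ≤ n) :
    |t| < r * κ ^ (n + 1) := by
  have h1 : |t| / r ≤ n := (Nat.ceil_le.mp hn)
  have h2 : (n : ℝ) < 2 ^ n := by exact_mod_cast Nat.lt_two_pow_self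
  have h3 : (2 : ℝ) ^ n ≤ κ ^ n := pow_le_pow_left₀ (by norm_num) hκ n
  have h4 : κ ^ n ≤ κ ^ (n + 1) := pow_le_pow_right₀ (by linarith) (by omega)
  rw [div_le_iff₀ hr] at h1
  nlinarith

theorem crv_eq (hκ : 2 ≤ κ) (hr : 0 < r) (hlin : ∀ s, |s| ≤ r → h (s • e) = (κ * s) • e)
    {t : ℝ} {n : ℕ} (ht : |t| ≤ r * κ ^ (n + 1)) : crv h e κ r t = h^[n] ((t / κ ^ n) • e) := by
  unfold crv
  set N := ⌈|t| / r⌉₊ with hN
  have h1 := exists_n hκ hr t (n := N) le_rfl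
  rw [← crv_stable hκ hlin h1.le (le_max_left N n) hr,
    ← crv_stable hκ hlin ht (le_max_right N n) hr]

theorem iterate_contDiff (hh : ContDiff ℝ ∞ h) (n : ℕ) : ContDiff ℝ ∞ (h^[n]) := by
  induction n with
  | zero => exact contDiff_id
  | succ n ih =>
    rw [Function.iterate_succ]
    exact ih.comp hh

theorem crv_eventuallyEq (hκ : 2 ≤ κ) (hr : 0 < r)
    (hlin : ∀ s, |s| ≤ r → h (s • e) = (κ * s) • e) {t₀ : ℝ} {n : ℕ}
    (ht : |t₀| < r * κ ^ (n + 1)) :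
    crv h e κ r =ᶠ[𝓝 t₀] fun t => h^[n] ((t / κ ^ n) • e) := by
  have : ∀ᶠ t in 𝓝 t₀, |t| < r * κ ^ (n + 1) :=
    (continuous_abs.tendsto t₀).eventually (gt_mem_nhds ht)
  filter_upwards [this] with t ht'
  exact crv_eq hκ hr hlin ht'.le

theorem line_contDiff (n : ℕ) : ContDiff ℝ ∞ (fun t : ℝ => (t / κ ^ n) • e) :=
  (contDiff_id.div_const _).smul contDiff_const

theorem crv_contDiff (hκ : 2 ≤ κ) (hr : 0 < r) (hh : ContDiff ℝ ∞ h)
    (hlin : ∀ s, |s| ≤ r → h (s • e) = (κ * s) • e) : ContDiff ℝ ∞ (crv h e κ r) := by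
  rw [contDiff_iff_contDiffAt]
  intro t₀
  have h1 := exists_n hκ hr t₀ (n := ⌈|t₀| / r⌉₊) le_rfl
  refine ContDiffAt.congr_of_eventuallyEq ?_ (crv_eventuallyEq hκ hr hlin h1)
  exact ((iterate_contDiff hh _).comp (line_contDiff _)).contDiffAt

theorem crv_injective (hκ : 2 ≤ κ) (hr : 0 < r) (he : e ≠ 0)
    (hlin : ∀ s, |s| ≤ r → h (s • e) = (κ * s) • e) : Function.Injective (crv h e κ r) := by
  intro t t' htt
  set n := max ⌈|t| / r⌉₊ ⌈|t'| / r⌉₊ with hn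
  rw [crv_eq hκ hr hlin (exists_n hκ hr t (le_max_left _ _ : _ ≤ n)).le,
    crv_eq hκ hr hlin (exists_n hκ hr t' (le_max_right _ _ : _ ≤ n)).le] at htt
  have h1 := (h.injective.iterate n) htt
  have h2 : t / κ ^ n = t' / κ ^ n := by
    by_contra hc
    have h3 : (t / κ ^ n - t' / κ ^ n) • e = 0 := by rw [sub_smul, h1, sub_self]
    rcases smul_eq_zero.mp h3 with h4 | h4
    · exact hc (sub_eq_zero.mp h4)
    · exact he h4
  have h5 : (κ ^ n) ≠ 0 := by positivity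
  field_simp at h2
  exact h2

theorem fderiv_iterate_injective (hh : ContDiff ℝ ∞ h) (hh' : ContDiff ℝ ∞ h.symm) (n : ℕ)
    (x v : ℝ × ℝ) (hv : fderiv ℝ (h^[n]) x v = 0) : v = 0 := by
  have h1 : Function.LeftInverse (h.symm^[n]) (h^[n]) :=
    Function.LeftInverse.iterate h.symm_apply_apply n
  have h2 : (h.symm^[n]) ∘ (h^[n]) = id := h1.comp_eq_id
  have d1 : DifferentiableAt ℝ (h^[n]) x :=
    ((iterate_contDiff hh n).differentiable (by simp)) x
  have d2 : DifferentiableAt ℝ (h.symm^[n]) (h^[n] x) :=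
    ((iterate_contDiff hh' n).differentiable (by simp)) _
  have h3 := fderiv_comp x d2 d1
  rw [h2, fderiv_id] at h3
  have h4 := congrArg (fun L => L v) h3
  simp only [ContinuousLinearMap.comp_apply, hv, map_zero] at h4
  simpa using h4

theorem crv_deriv_ne (hκ : 2 ≤ κ) (hr : 0 < r) (he : e ≠ 0) (hh : ContDiff ℝ ∞ h)
    (hh' : ContDiff ℝ ∞ h.symm) (hlin : ∀ s, |s| ≤ r → h (s • e) = (κ * s) • e) (t₀ : ℝ) :
    deriv (crv h e κ r) t₀ ≠ 0 := by
  set n := ⌈|t₀| / r⌉₊ with hn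
  have h1 := exists_n hκ hr t₀ (n := n) le_rfl
  rw [(crv_eventuallyEq hκ hr hlin h1).deriv_eq]
  have d1 : HasFDerivAt (h^[n]) (fderiv ℝ (h^[n]) ((t₀ / κ ^ n) • e)) ((t₀ / κ ^ n) • e) :=
    (((iterate_contDiff hh n).differentiable (by simp)) _).hasFDerivAt
  have d2 : HasDerivAt (fun t : ℝ => (t / κ ^ n) • e) ((1 / κ ^ n) • e) t₀ :=
    ((hasDerivAt_id t₀).div_const _).smul_const e
  have d3 : HasDerivAt (fun t : ℝ => h^[n] ((t / κ ^ n) • e))
      (fderiv ℝ (h^[n]) ((t₀ / κ ^ n) • e) ((1 / κ ^ n) • e)) t₀ := d1.comp_hasDerivAt t₀ d2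
  rw [d3.deriv]
  intro h0
  have h2 := fderiv_iterate_injective hh hh' n _ _ h0
  rcases smul_eq_zero.mp h2 with h3 | h3
  · have : (0 : ℝ) < 1 / κ ^ n := by positivity
    linarith
  · exact he h3

theorem crv_zero : crv h e κ r 0 = 0 := by
  unfold crv
  simp

theorem symm_iterate_crv (hκ : 2 ≤ κ) (hr : 0 < r)
    (hlin : ∀ s, |s| ≤ r → h (s • e) = (κ * s) • e) (t : ℝ) {k : ℕ} (hk : ⌈|t| / r⌉₊ ≤ k) :
    h.symm^[k] (crv h e κ r t) = (t / κ ^ k) • e := by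
  rw [crv_eq hκ hr hlin (exists_n hκ hr t hk).le]
  exact Function.LeftInverse.iterate h.symm_apply_apply k _

theorem symm_crv (hκ : 2 ≤ κ) (hr : 0 < r)
    (hlin : ∀ s, |s| ≤ r → h (s • e) = (κ * s) • e) (t : ℝ) :
    h.symm (crv h e κ r t) = crv h e κ r (t / κ) := by
  set n := ⌈|t| / r⌉₊ with hn
  have h1 := exists_n hκ hr t (n := n) le_rfl
  have h1' := exists_n hκ hr t (n := n + 1) (by omega)
  have h2 : |t / κ| ≤ r * κ ^ (n + 1) := by
    rw [abs_div, abs_of_pos (by linarith : (0 : ℝ) < κ)]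
    rw [div_le_iff₀ (by linarith), mul_assoc, ← pow_succ]
    exact h1'.le
  rw [crv_eq hκ hr hlin h1'.le, crv_eq hκ hr hlin h2, Function.iterate_succ_apply',
    h.symm_apply_apply]
  congr 2
  rw [pow_succ]
  field_simp

theorem crv_param (hκ : 2 ≤ κ) (hr : 0 < r) (he : e ≠ 0) (hh : ContDiff ℝ ∞ h)
    (hh' : ContDiff ℝ ∞ h.symm) (hlin : ∀ s, |s| ≤ r → h (s • e) = (κ * s) • e)
    (hloc : ∀ z, (∀ k, ‖h.symm^[k] z‖ ≤ 1 / 2) → ∃ s : ℝ, |s| ≤ r ∧ z = s • e) :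
    IsParam (crv h e κ r) {z | Tendsto (fun n : ℕ => h.symm^[n] z) atTop (𝓝 0)} 0 := by
  refine ⟨crv_contDiff hκ hr hh hlin, crv_injective hκ hr he hlin,
    crv_deriv_ne hκ hr he hh hh' hlin, crv_zero, ?_⟩
  ext z
  constructor
  · rintro ⟨t, rfl⟩
    have h1 : (fun k : ℕ => h.symm^[k] (crv h e κ r t)) =ᶠ[atTop] fun k : ℕ => (t / κ ^ k) • e :=
      (eventually_ge_atTop ⌈|t| / r⌉₊).mono fun k hk => symm_iterate_crv hκ hr hlin t hk
    rw [mem_ofPred_eq, tendsto_congr' h1]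
    have h2 : Tendsto (fun k : ℕ => t / κ ^ k) atTop (𝓝 0) := by
      have h3 : Tendsto (fun k : ℕ => t * (κ⁻¹) ^ k) atTop (𝓝 (t * 0)) := by
        apply Tendsto.const_mul
        apply tendsto_pow_atTop_nhds_zero_of_lt_one (by positivity)
        apply inv_lt_one_of_one_lt₀
        linarith
      rw [mul_zero] at h3
      refine h3.congr fun k => ?_
      rw [inv_pow]; rfl
    have h4 := h2.smul_const e
    rwa [zero_smul] at h4
  · intro hz
    rw [mem_ofPred_eq, Metric.tendsto_atTop] at hz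
    obtain ⟨k₀, hk₀⟩ := hz (1 / 2) (by norm_num)
    obtain ⟨s, hs, hw⟩ := hloc (h.symm^[k₀] z) (fun k => by
      rw [← Function.iterate_add_apply]
      have := hk₀ (k + k₀) (by omega)
      rw [dist_zero_right] at this
      exact this.le)
    refine ⟨κ ^ k₀ * s, ?_⟩
    have h1 : |κ ^ k₀ * s| ≤ r * κ ^ (k₀ + 1) := by
      rw [abs_mul, abs_of_pos (by positivity : (0 : ℝ) < κ ^ k₀), pow_succ]
      have h0 : (0 : ℝ) < κ ^ k₀ := by positivity
      have h1 : κ ^ k₀ * |s| ≤ κ ^ k₀ * r := mul_le_mul_of_nonneg_left hs h0.le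
      have h2 : κ ^ k₀ * r * 1 ≤ κ ^ k₀ * r * κ :=
        mul_le_mul_of_nonneg_left (by linarith) (by positivity)
      linarith
    rw [crv_eq hκ hr hlin h1]
    have h2 : (κ ^ k₀ * s / κ ^ k₀) • e = h.symm^[k₀] z := by
      rw [hw]; congr 1; field_simp
    rw [h2]
    exact Function.LeftInverse.iterate h.apply_symm_apply k₀ z

end

end Pool.Agent.MP_fe4422_gt
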