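import Mathlib

/-!
# Definitions for problem MP_fe4422_gt

The surface is the plane `ℝ × ℝ`.  A diffeomorphism is a bijection `f` of the plane such that `f`
and its inverse are smooth.
-/

namespace Pool.Agent.MP_fe4422_gt

open Set Filter Topology
open scoped ContDiff

/-- A chainable (arc-like) continuum: a compact connected metric space which for every `ε > 0` has
a finite open cover `U 0, ..., U (n-1)` by sets of diameter less than `ε` such that
`U i` meets `U j` if and only if `|i - j| ≤ 1`. -/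
def IsChainableContinuum (X : Type) [MetricSpace X] : Prop :=
  CompactSpace X ∧ ConnectedSpace X ∧
    ∀ ε : ℝ, 0 < ε → ∃ (n : ℕ) (U : Fin n → Set X),
      (∀ i, IsOpen (U i)) ∧ (⋃ i, U i) = univ ∧ (∀ i, Metric.diam (U i) < ε) ∧
      ∀ i j : Fin n, (U i ∩ U j).Nonempty ↔ |((i : ℕ) : ℤ) - ((j : ℕ) : ℤ)| ≤ 1

/-- `f` is a smooth diffeomorphism of the plane. -/
def IsDiffeo (f : ℝ × ℝ ≃ ℝ × ℝ) : Prop := ContDiff ℝ ∞ f ∧ ContDiff ℝ ∞ f.symm

/-- `p` is a hyperbolic saddle fixed point of `f`: the derivative of `f` at `p` has eigenvalues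
`l₁, l₂` with `0 < |l₁| < 1 < |l₂|`. -/
def IsSaddle (f : ℝ × ℝ ≃ ℝ × ℝ) (p : ℝ × ℝ) : Prop :=
  f p = p ∧ ∃ (l₁ l₂ : ℝ) (v₁ v₂ : ℝ × ℝ), 0 < |l₁| ∧ |l₁| < 1 ∧ 1 < |l₂| ∧ v₁ ≠ 0 ∧ v₂ ≠ 0 ∧
    fderiv ℝ f p v₁ = l₁ • v₁ ∧ fderiv ℝ f p v₂ = l₂ • v₂

/-- The stable manifold of `p`: the points whose forward orbit converges to `p`. -/
def Ws (f : ℝ × ℝ ≃ ℝ × ℝ) (p : ℝ × ℝ) : Set (ℝ × ℝ) :=
  {z | Tendsto (fun n : ℕ => f^[n] z) atTop (𝓝 p)}

/-- The unstable manifold of `p`: the points whose backward orbit converges to `p`. -/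
def Wu (f : ℝ × ℝ ≃ ℝ × ℝ) (p : ℝ × ℝ) : Set (ℝ × ℝ) :=
  {z | Tendsto (fun n : ℕ => f.symm^[n] z) atTop (𝓝 p)}

/-- `γ` is a parametrization of the invariant curve `W` of the fixed point `p` as an injectively
immersed smooth line with `γ 0 = p`.  The two branches of `W` (the components of `W \ {p}` in the
topology of the line) are then `γ '' Ioi 0` and `γ '' Iio 0`. -/
def IsParam (γ : ℝ → ℝ × ℝ) (W : Set (ℝ × ℝ)) (p : ℝ × ℝ) : Prop :=
  ContDiff ℝ ∞ γ ∧ Function.Injective γ ∧ (∀ t, deriv γ t ≠ 0) ∧ γ 0 = p ∧ range γ = W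

/-- A closed topological disc in the plane. -/
def IsClosedDisc (D : Set (ℝ × ℝ)) : Prop :=
  Nonempty (Metric.closedBall (0 : EuclideanSpace ℝ (Fin 2)) 1 ≃ₜ D)

/-- The parameter interval of the arc of the curve `γ` through `γ t` in `D`. -/
def arcDomain (γ : ℝ → ℝ × ℝ) (t : ℝ) (D : Set (ℝ × ℝ)) : Set ℝ :=
  connectedComponentIn (γ ⁻¹' D) t

/-- `C` is a connected component of the set `S`. -/
def IsComponentOf (C S : Set (ℝ × ℝ)) : Prop := ∃ x ∈ S, C = connectedComponentIn S x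

/-- Topological transversality of the curves `γu`, `γs` at `q = γu tu = γs ts`: there is a closed
disc `D` around `q` such that the arc of `γs` through `q` in `D` cuts `D` into two components,
and the curve `γu` meets both of them arbitrarily close to (the parameter `tu` of) `q`.
(The disc is not required to be small and only this consequence of crossing is required, so that
this is implied by topological transversality in the sense of the problem.) -/
def TopTransverse (γu γs : ℝ → ℝ × ℝ) (tu ts : ℝ) : Prop :=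
  ∃ D : Set (ℝ × ℝ), IsClosedDisc D ∧ γs ts ∈ interior D ∧ IsCompact (arcDomain γs ts D) ∧
    ∃ U V : Set (ℝ × ℝ), IsComponentOf U (D \ γs '' arcDomain γs ts D) ∧
      IsComponentOf V (D \ γs '' arcDomain γs ts D) ∧ U ≠ V ∧
      U ∪ V = D \ γs '' arcDomain γs ts D ∧
      ∀ δ : ℝ, 0 < δ → (∃ t ∈ Ioo (tu - δ) (tu + δ), γu t ∈ U) ∧
        (∃ t ∈ Ioo (tu - δ) (tu + δ), γu t ∈ V)

/-- A one-sided quadratic tangency: in suitable linear coordinates the curve `γs` is a straight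
line near `q` (a level line of a nonzero linear form `F`) and near `q` the curve `γu` lies on one
side of it with quadratic contact. -/
def OneSidedTangency (γu γs : ℝ → ℝ × ℝ) (tu ts : ℝ) : Prop :=
  ∃ F : ℝ × ℝ →L[ℝ] ℝ, F ≠ 0 ∧ (∀ᶠ s in 𝓝 ts, F (γs s) = F (γs ts)) ∧
    ∃ c : ℝ, 0 < c ∧ ∀ᶠ t in 𝓝 tu, F (γu t) = F (γs ts) - c * (t - tu) ^ 2

end Pool.Agent.MP_fe4422_gt
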