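import Pool.Agent.Lib.MP_fe4422_gt.Seq

/-!
# The fibre estimate
-/

namespace Pool.Agent.MP_fe4422_gt

variable {y y' : ℕ → ℝ}

/-- both sequences are in the same linear branch at index `k` -/
def Lin (y y' : ℕ → ℝ) (k : ℕ) : Prop :=
  (|y k| ≤ 1 ∧ |y' k| ≤ 1) ∨ ((9 ≤ y k ∧ y k ≤ 11) ∧ (9 ≤ y' k ∧ y' k ≤ 11))

theorem lin_ineq (ha : Adm y) (ha' : Adm y') {k : ℕ} (h : Lin y y' (k + 1)) :
    100 * |y (k + 1) - y' (k + 1)| ≤ |y k - y' k| + |y (k + 2) - y' (k + 2)| / 1000 := by
  have hr := ha.recur k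
  have hr' := ha'.recur k
  rcases h with ⟨h1, h2⟩ | ⟨h1, h2⟩
  · rw [lin_of_abs h1] at hr
    rw [lin_of_abs h2] at hr'
    have e : 10000001 / 100000 * (y (k + 1) - y' (k + 1)) =
        (y k - y' k) + (y (k + 2) - y' (k + 2)) / 1000 := by linarith
    have e2 := congrArg abs e
    rw [abs_mul, abs_of_pos (by norm_num : (0 : ℝ) < 10000001 / 100000)] at e2
    have e3 := abs_add_le (y k - y' k) ((y (k + 2) - y' (k + 2)) / 1000)
    rw [abs_div, abs_of_pos (by norm_num : (0 : ℝ) < 1000)] at e3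
    have := abs_nonneg (y (k + 1) - y' (k + 1))
    linarith
  · rw [phi_p7 h1.1 h1.2] at hr
    rw [phi_p7 h2.1 h2.2] at hr'
    have e : -(10000001 / 100000 * (y (k + 1) - y' (k + 1))) =
        (y k - y' k) + (y (k + 2) - y' (k + 2)) / 1000 := by linarith
    have e2 := congrArg abs e
    rw [abs_neg, abs_mul, abs_of_pos (by norm_num : (0 : ℝ) < 10000001 / 100000)] at e2
    have e3 := abs_add_le (y k - y' k) ((y (k + 2) - y' (k + 2)) / 1000)
    rw [abs_div, abs_of_pos (by norm_num : (0 : ℝ) < 1000)] at e3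
    have := abs_nonneg (y (k + 1) - y' (k + 1))
    linarith

theorem chain_step (ha : Adm y) (ha' : Adm y') {i J : ℕ}
    (h0 : |y i - y' i| ≤ 1 / 10000 * |y (i + 1) - y' (i + 1)|)
    (hl : ∀ k, i < k → k < J → Lin y y' k) {k : ℕ} (hk : i ≤ k) (hkJ : k < J) :
    |y k - y' k| ≤ 1 / 10000 * |y (k + 1) - y' (k + 1)| := by
  induction k, hk using Nat.le_induction with
  | base => exact h0
  | succ k hk ih =>
    have h1 := ih (by omega)
    have h2 := lin_ineq ha ha' (hl (k + 1) (by omega) hkJ)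
    have h3 := abs_nonneg (y (k + 1) - y' (k + 1))
    have h4 := abs_nonneg (y (k + 1 + 1) - y' (k + 1 + 1))
    have h5 : |y (k + 2) - y' (k + 2)| = |y (k + 1 + 1) - y' (k + 1 + 1)| := rfl
    rw [h5] at h2
    linarith

theorem chain_all (ha : Adm y) (ha' : Adm y') {i J : ℕ}
    (h0 : |y i - y' i| ≤ 1 / 10000 * |y (i + 1) - y' (i + 1)|)
    (hl : ∀ k, i < k → k < J → Lin y y' k) {m : ℕ} (hm : m ≤ J) (hi : i ≤ J - m) :
    |y (J - m) - y' (J - m)| ≤ (1 / 10000) ^ m * 602 := by
  induction m with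
  | zero =>
    have h1 := abs_le.mp (ha.abs_bd (J - 0))
    have h2 := abs_le.mp (ha'.abs_bd (J - 0))
    rw [abs_le]
    constructor <;> simp only [pow_zero] <;> linarith
  | succ m ih =>
    have h1 := ih (by omega) (by omega)
    have h2 := chain_step ha ha' h0 hl (k := J - (m + 1)) hi (by omega)
    have e : J - (m + 1) + 1 = J - m := by omega
    rw [e] at h2
    rw [pow_succ]
    linarith

/-- the state difference at time `i` after a linear chain up to time `J` -/
theorem chain_state (ha : Adm y) (ha' : Adm y') {i J : ℕ} (hiJ : i < J)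
    (h0 : |y i - y' i| ≤ 1 / 10000 * |y (i + 1) - y' (i + 1)|)
    (hl : ∀ k, i < k → k < J → Lin y y' k) :
    |y i - y' i| ≤ (1 / 10000) ^ (J - i - 1) * 602 ∧
    |y (i + 1) - y' (i + 1)| ≤ (1 / 10000) ^ (J - i - 1) * 602 := by
  have h1 := chain_all ha ha' h0 hl (m := J - i - 1) (by omega) (by omega)
  have e : J - (J - i - 1) = i + 1 := by omega
  rw [e] at h1
  refine ⟨?_, h1⟩
  have := abs_nonneg (y (i + 1) - y' (i + 1))
  linarith

/-- contraction in the sink region -/
theorem sink (ha : Adm y) (ha' : Adm y') {C D : ℝ} (hC : 1 ≤ C)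
    (hL : ∀ x z : ℝ, |x| ≤ 301 → |z| ≤ 301 → |phi x - phi z| ≤ C * |x - z|) {i : ℕ}
    (hy : y i ≤ -(1 / 10)) (hy' : y' i ≤ -(1 / 10)) (hD : |y i - y' i| ≤ D)
    (hD' : |y (i + 1) - y' (i + 1)| ≤ D) (m : ℕ) : m ≤ i + 1 →
    |y (i + 1 - m) - y' (i + 1 - m)| ≤ (C + 1) * 100 * D * (1 / 10) ^ m := by
  have hD0 : 0 ≤ D := (abs_nonneg _).trans hD
  induction m using Nat.strong_induction_on with
  | _ m ih =>
    intro hm
    rcases m with _ | _ | _ | m
    · simp only [Nat.sub_zero, pow_zero]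
      nlinarith
    · simp only [Nat.add_sub_cancel, zero_add, pow_one]
      nlinarith
    · obtain ⟨k, rfl⟩ : ∃ k, i = k + 1 := ⟨i - 1, by omega⟩
      have e : k + 1 + 1 - (0 + 1 + 1) = k := by omega
      rw [e, ha.recur k, ha'.recur k]
      have h1 := hL _ _ (ha.abs_bd (k + 1)) (ha'.abs_bd (k + 1))
      have e2 : phi (y (k + 1)) - y (k + 2) / 1000 - (phi (y' (k + 1)) - y' (k + 2) / 1000) =
        (phi (y (k + 1)) - phi (y' (k + 1))) - (y (k + 2) - y' (k + 2)) / 1000 := by ring
      rw [e2]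
      have h2 := abs_sub (phi (y (k + 1)) - phi (y' (k + 1))) ((y (k + 2) - y' (k + 2)) / 1000)
      rw [abs_div, abs_of_pos (by norm_num : (0 : ℝ) < 1000)] at h2
      have h3 : |y (k + 2) - y' (k + 2)| ≤ D := hD'
      have h4 : C * |y (k + 1) - y' (k + 1)| ≤ C * D := by nlinarith
      norm_num
      nlinarith
    · have e : i + 1 - (m + 1 + 1 + 1) + 1 < i := by omega
      set k := i + 1 - (m + 1 + 1 + 1) with hk
      have h1 : y (k + 1) ≤ -2 := ha.neg_forever hy e
      have h2 : y' (k + 1) ≤ -2 := ha'.neg_forever hy' e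
      have h3 := ih (m + 1) (by omega) (by omega)
      have e3 : i + 1 - (m + 1) = k + 2 := by omega
      rw [e3] at h3
      rw [ha.recur k, ha'.recur k, phi_p1 h1, phi_p1 h2]
      have e4 : -(10000001 / 100000) - y (k + 2) / 1000 -
          (-(10000001 / 100000) - y' (k + 2) / 1000) = -((y (k + 2) - y' (k + 2)) / 1000) := by
        ring
      rw [e4, abs_neg, abs_div, abs_of_pos (by norm_num : (0 : ℝ) < 1000)]
      have h5 : (0 : ℝ) ≤ (C + 1) * 100 * D * (1 / 10) ^ (m + 1) := by positivity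
      have e5 : (C + 1) * 100 * D * (1 / 10) ^ (m + 1 + 1 + 1) =
        (C + 1) * 100 * D * (1 / 10) ^ (m + 1) / 100 := by ring
      rw [e5]
      linarith

/-- forward Lipschitz estimate -/
theorem forward (ha : Adm y) (ha' : Adm y') {C D : ℝ} (hC : 1 ≤ C)
    (hL : ∀ x z : ℝ, |x| ≤ 301 → |z| ≤ 301 → |phi x - phi z| ≤ C * |x - z|) {i : ℕ}
    (hD : |y i - y' i| ≤ D) (hD' : |y (i + 1) - y' (i + 1)| ≤ D) :
    |y 0 - y' 0| ≤ (C + 1) ^ i * D ∧ |y 1 - y' 1| ≤ (C + 1) ^ i * D := by
  induction i generalizing D with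
  | zero => simpa using ⟨hD, hD'⟩
  | succ k ih =>
    have hD0 : 0 ≤ D := (abs_nonneg _).trans hD
    have h1 := hL _ _ (ha.abs_bd (k + 1)) (ha'.abs_bd (k + 1))
    have h2 := abs_sub (phi (y (k + 1)) - phi (y' (k + 1))) ((y (k + 2) - y' (k + 2)) / 1000)
    rw [abs_div, abs_of_pos (by norm_num : (0 : ℝ) < 1000)] at h2
    have h3 : |y (k + 2) - y' (k + 2)| ≤ D := hD'
    have h4 : C * |y (k + 1) - y' (k + 1)| ≤ C * D := by nlinarith
    have h5 : |y k - y' k| ≤ (C + 1) * D := by
      rw [ha.recur k, ha'.recur k]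
      have e2 : phi (y (k + 1)) - y (k + 2) / 1000 - (phi (y' (k + 1)) - y' (k + 2) / 1000) =
        (phi (y (k + 1)) - phi (y' (k + 1))) - (y (k + 2) - y' (k + 2)) / 1000 := by ring
      rw [e2]
      linarith
    have h6 : |y (k + 1) - y' (k + 1)| ≤ (C + 1) * D := by nlinarith
    have := ih h5 h6
    rw [pow_succ, mul_assoc]
    exact this

/-- peeling at recent times -/
theorem peel_rec {M i : ℕ} (hi : i ≤ M)
    (hs : ∀ k, i < k → k ≤ M → |y k| < 1 / 8 ∧ |y' k| < 1 / 8)
    (he : Gam M y M = Gam M y' M) : Gam M y i = Gam M y' i := by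
  have key : ∀ m, m ≤ M - i → Gam M y (M - m) = Gam M y' (M - m) := by
    intro m
    induction m with
    | zero => intro _; simpa using he
    | succ m ih =>
      intro hm
      have h1 := ih (by omega)
      have e : M - m = (M - (m + 1)) + 1 := by omega
      rw [e] at h1
      have h2 := hs (M - (m + 1) + 1) (by omega) (by omega)
      rw [rec_small (by omega) h2.1.le, rec_small (by omega) h2.2.le] at h1
      linarith
  have := key (M - i) le_rfl
  have e : M - (M - i) = i := by omega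
  rwa [e] at this

/-- at the event time the second coordinates are much closer than the first ones -/
theorem event_close (ha : Adm y) (ha' : Adm y') {M i : ℕ} (hi : i ≤ M)
    (he : Gam M y i = Gam M y' i) (h1 : 1 / 10 ≤ |y i|) (h2 : 1 / 10 ≤ |y' i|) :
    |y i - y' i| ≤ 1 / 10000 * |y (i + 1) - y' (i + 1)| := by
  rcases i with _ | i
  · rw [Gam_zero, Gam_zero] at he
    rw [he, sub_self, abs_zero]
    positivity
  · rw [rec_mid ha hi h1, rec_mid ha' hi h2] at he
    have e : y (i + 1) - y' (i + 1) = (rho (y (i + 1)) - rho (y' (i + 1))) * (y (i + 2) / 1000) +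
        rho (y' (i + 1)) * ((y (i + 2) - y' (i + 2)) / 1000) := by linarith
    have h3 := rho_lip (y (i + 1)) (y' (i + 1))
    have h4 := rho_nonneg (y' (i + 1))
    have h5 := rho_le (y' (i + 1))
    have h6 := ha.abs_bd (i + 2)
    have h7 := abs_nonneg (y (i + 1) - y' (i + 1))
    have h8 := abs_nonneg (y (i + 2) - y' (i + 2))
    have h9 : |y (i + 1) - y' (i + 1)| ≤ |rho (y (i + 1)) - rho (y' (i + 1))| *
        (|y (i + 2)| / 1000) + rho (y' (i + 1)) * (|y (i + 2) - y' (i + 2)| / 1000) := by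
      calc |y (i + 1) - y' (i + 1)| = _ := congrArg abs e
        _ ≤ _ := abs_add_le _ _
        _ = _ := by
          rw [abs_mul, abs_mul, abs_div, abs_div, abs_of_nonneg h4,
            abs_of_pos (by norm_num : (0 : ℝ) < 1000)]
    have h10 : |rho (y (i + 1)) - rho (y' (i + 1))| * (|y (i + 2)| / 1000) ≤
        8 / 100 * |y (i + 1) - y' (i + 1)| * (301 / 1000) := by
      apply mul_le_mul h3 (by linarith) (by positivity) (by positivity)
    have h11 : rho (y' (i + 1)) * (|y (i + 2) - y' (i + 2)| / 1000) ≤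
        100000 / 10000001 * (|y (i + 2) - y' (i + 2)| / 1000) :=
      mul_le_mul_of_nonneg_right h5 (by positivity)
    have h12 : |y (i + 1 + 1) - y' (i + 1 + 1)| = |y (i + 2) - y' (i + 2)| := rfl
    rw [h12]
    linarith

/-- the positive case: the whole past is linear -/
theorem past_linear (ha : Adm y) {M i : ℕ} (hiM : i ≤ M)
    (hy : 1 / 100 < y i) (hM : i = M → y M < 15)
    (hs : ∀ k, i < k → k ≤ M → |y k| < 1 / 8) {k : ℕ} (hk : i < k) :
    0 ≤ y k ∧ y k < 10 ∧ (y k < 1 / 2 ∨ 19 / 2 < y k) := by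
  have hn : ¬ NegR (y (i + 1)) (y i) := Adm.not_neg_of_gt hy
  obtain ⟨m, rfl⟩ : ∃ m, k = m + 1 := ⟨k - 1, by omega⟩
  have hnm := ha.not_neg_up (by omega : i ≤ m) hn
  have hp := ha.pos_of_not_neg hnm
  refine ⟨hp.1, ha.lt_ten hnm, ?_⟩
  by_contra hc
  push Not at hc
  have h15 := ha.czone hc.1 hc.2
  rcases Nat.eq_or_lt_of_le (by omega : i ≤ m) with h | h
  · subst h
    rcases Nat.eq_or_lt_of_le hiM with h2 | h2
    · have := hM h2
      rw [← h2] at this
      linarith
    · have h3 := hs (i + 1) (by omega) (by omega)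
      have h4 := (abs_lt.mp h3).2
      linarith
  · obtain ⟨j, rfl⟩ : ∃ j, m = j + 1 := ⟨m - 1, by omega⟩
    have h3 := ha.lt_ten (ha.not_neg_up (by omega : i ≤ j) hn)
    linarith

theorem fiber_small {ε : ℝ} (hε : 0 < ε) : ∃ M N : ℕ, ∀ y y' : ℕ → ℝ, Adm y → Adm y' →
    Gam M y N = Gam M y' N → |y 0 - y' 0| < ε ∧ |y 1 - y' 1| < ε := by
  obtain ⟨C, hC, hL⟩ := phi_lip
  obtain ⟨M₀, hM₀⟩ := exists_pow_lt_of_lt_one (show 0 < ε / ((C + 1) * 100 * 602) by positivity)
    (by norm_num : (1 / 10 : ℝ) < 1)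
  set M := M₀ + 1 with hMdef
  obtain ⟨P, hP⟩ := exists_pow_lt_of_lt_one (show 0 < ε / ((C + 1) ^ M * 602) by positivity)
    (by norm_num : (1 / 10000 : ℝ) < 1)
  have hM1 : (C + 1) * 100 * 602 * (1 / 10) ^ M₀ < ε := by
    rw [lt_div_iff₀ (by positivity)] at hM₀
    linarith
  have hP1 : (C + 1) ^ M * ((1 / 10000) ^ P * 602) < ε := by
    rw [lt_div_iff₀ (by positivity)] at hP
    linarith
  have hMM : (C + 1) * 100 * 602 * (1 / 10) ^ M ≤ (C + 1) * 100 * 602 * (1 / 10) ^ M₀ := by
    apply mul_le_mul_of_nonneg_left _ (by positivity)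
    exact pow_le_pow_of_le_one (by norm_num) (by norm_num) (by omega)
  refine ⟨M, M + P, fun y y' ha ha' he => ?_⟩
  have hbd : ∀ k, |y k - y' k| ≤ 602 := fun k => by
    have h1 := ha.bd k
    have h2 := ha'.bd k
    rw [abs_le]; constructor <;> linarith
  -- sink-bound case
  have hSB : SB M y → SB M y' → |y 0 - y' 0| < ε ∧ |y 1 - y' 1| < ε := by
    intro h1 h2
    have k1 : ∀ z : ℕ → ℝ, Adm z → SB M z → z M₀ ≤ -2 := by
      intro z hz h
      rcases h with h | h
      · exact hz.after_big h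
      · exact hz.after_neg h
    have k2 := k1 y ha h1
    have k3 := k1 y' ha' h2
    have hs := sink ha ha' hC hL (i := M₀) (by linarith) (by linarith) (hbd _) (hbd _)
    have s1 := hs M₀ (by omega)
    have s2 := hs (M₀ + 1) (by omega)
    have e1 : M₀ + 1 - M₀ = 1 := by omega
    have e2 : M₀ + 1 - (M₀ + 1) = 0 := by omega
    rw [e1] at s1
    rw [e2] at s2
    exact ⟨by linarith, by linarith⟩
  rcases peel_all (M := M) ha ha' (by omega) he with h | ⟨hmatch, heM⟩
  · exact hSB h.1 h.2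
  by_cases hnone : ∀ k, k ≤ M → |y k| < 1 / 8 ∧ |y' k| < 1 / 8
  · -- nothing happens
    have h0 : Gam M y 0 = Gam M y' 0 := peel_rec (by omega) (fun k _ hk => hnone k hk) heM
    rw [Gam_zero, Gam_zero] at h0
    have h1 : |y 0 - y' 0| ≤ 1 / 10000 * |y (0 + 1) - y' (0 + 1)| := by
      rw [h0, sub_self, abs_zero]; positivity
    have h2 := chain_state ha ha' (i := 0) (J := M + 1) (by omega) h1 (fun k hk1 hk2 =>
      Or.inl ⟨by linarith [(hnone k (by omega)).1], by linarith [(hnone k (by omega)).2]⟩)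
    have e : M + 1 - 0 - 1 = M := by omega
    rw [e] at h2
    have h3 : (1 / 10000 : ℝ) ^ M ≤ (1 / 10) ^ M := pow_le_pow_left₀ (by norm_num) (by norm_num) _
    have h4 : (0 : ℝ) < (1 / 10) ^ M := by positivity
    have h5 : (1 / 10000 : ℝ) ^ M * 602 < ε := by
      nlinarith
    exact ⟨by linarith [h2.1], by linarith [h2.2]⟩
  -- the most recent event
  have hex : ∃ i, i ≤ M ∧ ¬ (|y i| < 1 / 8 ∧ |y' i| < 1 / 8) ∧
      ∀ k, i < k → k ≤ M → |y k| < 1 / 8 ∧ |y' k| < 1 / 8 := by
    classical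
    push Not at hnone
    obtain ⟨k₀, hk₀, hk₀'⟩ := hnone
    set Q : ℕ → Prop := fun k => ¬ (|y k| < 1 / 8 ∧ |y' k| < 1 / 8) with hQ
    have hQk : Q k₀ := by
      intro h
      linarith [hk₀' h.1, h.2]
    refine ⟨Nat.findGreatest Q M, Nat.findGreatest_le M, Nat.findGreatest_spec hk₀ hQk, ?_⟩
    intro k hk1 hk2
    by_contra hc
    exact Nat.findGreatest_is_greatest hk1 hk2 hc
  obtain ⟨i, hiM, hni, hafter⟩ := hex
  have hei : Gam M y i = Gam M y' i := peel_rec hiM hafter heM
  have hc1 := abs_le.mp (rec_close ha hiM)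
  have hc2 := abs_le.mp (rec_close ha' hiM)
  have hcl : |y i - y' i| ≤ 2 / 100 := by
    rw [abs_le]; constructor <;> linarith
  have hcl' := abs_le.mp hcl
  -- signs
  have hsign : (1 / 10 ≤ y i ∧ 1 / 10 ≤ y' i) ∨ (y i ≤ -(1 / 10) ∧ y' i ≤ -(1 / 10)) := by
    rw [not_and_or, not_lt, not_lt] at hni
    rcases hni with h | h
    · rcases le_abs.mp h with h | h
      · left; constructor <;> linarith
      · right; constructor <;> linarith
    · rcases le_abs.mp h with h | h
      · left; constructor <;> linarith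
      · right; constructor <;> linarith
  rcases hsign with ⟨hp, hp'⟩ | ⟨hn, hn'⟩
  · -- positive case
    by_cases hbig : i = M ∧ 15 ≤ y M
    · obtain ⟨rfl, hb⟩ := hbig
      have h1 : Gam M y M = y M := rec_big le_rfl (by rw [abs_of_nonneg (by linarith)]; linarith)
      have h3 : Gam M y' M = y' M :=
          rec_big le_rfl (by rw [abs_of_nonneg (by linarith)]; linarith)
      exact hSB (Or.inl hb) (Or.inl (by linarith))
    by_cases hbig' : i = M ∧ 15 ≤ y' M
    · obtain ⟨rfl, hb⟩ := hbig'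
      have h1 : Gam M y' M = y' M := rec_big le_rfl (by rw [abs_of_nonneg (by linarith)]; linarith)
      have h3 : Gam M y M = y M :=
          rec_big le_rfl (by rw [abs_of_nonneg (by linarith)]; linarith)
      exact hSB (Or.inl (by linarith)) (Or.inl hb)
    have hM1' : i = M → y M < 15 := fun h => by
      by_contra hc
      exact hbig ⟨h, not_lt.mp hc⟩
    have hM2' : i = M → y' M < 15 := fun h => by
      by_contra hc
      exact hbig' ⟨h, not_lt.mp hc⟩
    have hlin : ∀ k, i < k → k < M + P + 1 → Lin y y' k := by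
      intro k hk1 hk2
      have p1 := past_linear ha hiM (by linarith) hM1' (fun k h1 h2 => (hafter k h1 h2).1) hk1
      have p2 := past_linear ha' hiM (by linarith) hM2' (fun k h1 h2 => (hafter k h1 h2).2) hk1
      rcases le_or_gt k M with hkM | hkM
      · have := hafter k hk1 hkM
        exact Or.inl ⟨by linarith [this.1], by linarith [this.2]⟩
      · rcases hmatch k hkM (by omega) with ⟨m1, m2⟩ | ⟨m1, m2⟩
        · left
          constructor
          · rw [abs_of_nonneg p1.1]
            rcases p1.2.2 with h | h <;> linarith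
          · rw [abs_of_nonneg p2.1]
            rcases p2.2.2 with h | h <;> linarith
        · right
          constructor
          · constructor
            · rcases p1.2.2 with h | h <;> linarith
            · linarith [p1.2.1]
          · constructor
            · rcases p2.2.2 with h | h <;> linarith
            · linarith [p2.2.1]
    have h0 := event_close ha ha' hiM hei (by rw [abs_of_nonneg (by linarith)]; exact hp)
      (by rw [abs_of_nonneg (by linarith)]; exact hp')
    have h1 := chain_state ha ha' (J := M + P + 1) (by omega) h0 hlin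
    have h2 := forward ha ha' hC hL h1.1 h1.2
    have h3 : (C + 1) ^ i * ((1 / 10000) ^ (M + P + 1 - i - 1) * 602) ≤
        (C + 1) ^ M * ((1 / 10000) ^ P * 602) := by
      apply mul_le_mul _ _ (by positivity) (by positivity)
      · exact pow_le_pow_right₀ (by linarith) hiM
      · apply mul_le_mul_of_nonneg_right _ (by norm_num)
        exact pow_le_pow_of_le_one (by norm_num) (by norm_num) (by omega)
    exact ⟨by linarith [h2.1], by linarith [h2.2]⟩
  · -- negative case
    have h0 := event_close ha ha' hiM hei (by rw [abs_of_nonpos (by linarith)]; linarith)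
      (by rw [abs_of_nonpos (by linarith)]; linarith)
    have h1 := chain_state ha ha' (i := i) (J := M + 1) (by omega) h0 (fun k hk1 hk2 =>
      Or.inl ⟨by linarith [(hafter k hk1 (by omega)).1],
        by linarith [(hafter k hk1 (by omega)).2]⟩)
    have e : M + 1 - i - 1 = M - i := by omega
    rw [e] at h1
    have hs := sink ha ha' hC hL hn hn' h1.1 h1.2
    have s1 := hs (i + 1) le_rfl
    have s2 := hs i (by omega)
    have e1 : i + 1 - (i + 1) = 0 := by omega
    have e2 : i + 1 - i = 1 := by omega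
    rw [e1] at s1
    rw [e2] at s2
    have h3 : (1 / 10000 : ℝ) ^ (M - i) * (1 / 10) ^ i ≤ (1 / 10) ^ M := by
      have h4 : (1 / 10000 : ℝ) ^ (M - i) ≤ (1 / 10) ^ (M - i) :=
        pow_le_pow_left₀ (by norm_num) (by norm_num) _
      have h5 : (1 / 10 : ℝ) ^ M = (1 / 10) ^ (M - i) * (1 / 10) ^ i := by
        rw [← pow_add]; congr 1; omega
      rw [h5]
      exact mul_le_mul_of_nonneg_right h4 (by positivity)
    have h4 : (C + 1) * 100 * ((1 / 10000) ^ (M - i) * 602) * (1 / 10) ^ i ≤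
        (C + 1) * 100 * 602 * (1 / 10) ^ M := by
      have : (C + 1) * 100 * ((1 / 10000) ^ (M - i) * 602) * (1 / 10) ^ i =
        (C + 1) * 100 * 602 * ((1 / 10000) ^ (M - i) * (1 / 10) ^ i) := by ring
      rw [this]
      exact mul_le_mul_of_nonneg_left h3 (by positivity)
    have h5 : (C + 1) * 100 * ((1 / 10000) ^ (M - i) * 602) * (1 / 10) ^ (i + 1) ≤
        (C + 1) * 100 * ((1 / 10000) ^ (M - i) * 602) * (1 / 10) ^ i := by
      apply mul_le_mul_of_nonneg_left _ (by positivity)
      exact pow_le_pow_of_le_one (by norm_num) (by norm_num) (by omega)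
    exact ⟨by linarith, by linarith⟩

end Pool.Agent.MP_fe4422_gt
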