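import Pool.Agent.Lib.MP_fe4422_gt.Est
import Pool.Agent.Lib.MP_fe4422_gt.Chain
import Pool.Agent.Lib.MP_fe4422_gt.Curve

/-!
# The diffeomorphism and the main theorem
-/

namespace Pool.Agent.MP_fe4422_gt

open Set Filter Topology
open scoped ContDiff

/-- the Henon-like diffeomorphism `(x, y) ↦ (y, phi y - x / 1000)` -/
noncomputable def H : ℝ × ℝ ≃ ℝ × ℝ where
  toFun z := (z.2, phi z.2 - z.1 / 1000)
  invFun w := ((phi w.1 - w.2) * 1000, w.1)
  left_inv z := by
    ext
    · simp only; ring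
    · simp only
  right_inv w := by
    ext
    · simp only
    · simp only; ring

theorem H_apply (z : ℝ × ℝ) : H z = (z.2, phi z.2 - z.1 / 1000) := rfl
theorem H_symm_apply (w : ℝ × ℝ) : H.symm w = ((phi w.1 - w.2) * 1000, w.1) := rfl

theorem H_contDiff : ContDiff ℝ ∞ H :=
  contDiff_snd.prodMk ((phi_contDiff.comp contDiff_snd).sub (contDiff_fst.div_const _))

theorem H_symm_contDiff : ContDiff ℝ ∞ H.symm :=
  (((phi_contDiff.comp contDiff_fst).sub contDiff_snd).mul contDiff_const).prodMk contDiff_fst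

theorem H_isDiffeo : IsDiffeo H := ⟨H_contDiff, H_symm_contDiff⟩

/-- the linear part at the origin -/
noncomputable def A : ℝ × ℝ →L[ℝ] ℝ × ℝ :=
  (ContinuousLinearMap.snd ℝ ℝ ℝ).prod ((10000001 / 100000 : ℝ) • ContinuousLinearMap.snd ℝ ℝ ℝ -
    (1 / 1000 : ℝ) • ContinuousLinearMap.fst ℝ ℝ ℝ)

theorem A_apply (z : ℝ × ℝ) : A z = (z.2, 10000001 / 100000 * z.2 - 1 / 1000 * z.1) := by
  simp [A]

theorem H_zero : H 0 = 0 := by
  rw [H_apply]
  have : phi 0 = 0 := by rw [phi_p3 (by norm_num) (by norm_num)]; ring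
  simp [this]

theorem H_fderiv : fderiv ℝ H 0 = A := by
  have h : (H : ℝ × ℝ → ℝ × ℝ) =ᶠ[𝓝 0] A := by
    have h1 : ∀ᶠ z : ℝ × ℝ in 𝓝 0, |z.2| < 1 := by
      have h2 : Tendsto (fun z : ℝ × ℝ => |z.2|) (𝓝 0) (𝓝 |(0 : ℝ × ℝ).2|) :=
        (continuous_snd.abs).tendsto 0
      exact h2.eventually (gt_mem_nhds (by simp))
    filter_upwards [h1] with z hz
    rw [H_apply, A_apply, lin_of_abs hz.le]
    ext
    · rfl
    · simp only; ring
  rw [h.fderiv_eq]
  exact A.fderiv

/-- unstable eigenvector -/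
noncomputable def eu : ℝ × ℝ := (1, 100)
/-- stable eigenvector -/
noncomputable def es : ℝ × ℝ := (1, 1 / 100000)

theorem eu_ne : eu ≠ 0 := by
  intro h
  have := congrArg Prod.fst h
  simp [eu] at this

theorem es_ne : es ≠ 0 := by
  intro h
  have := congrArg Prod.fst h
  simp [es] at this

theorem H_isSaddle : IsSaddle H 0 := by
  refine ⟨H_zero, 1 / 100000, 100, es, eu, ?_, ?_, ?_, es_ne, eu_ne, ?_, ?_⟩
  · rw [abs_of_pos] <;> norm_num
  · rw [abs_of_pos] <;> norm_num
  · rw [abs_of_pos] <;> norm_num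
  · rw [H_fderiv, A_apply]
    ext <;> simp only [es, Prod.smul_mk, smul_eq_mul] <;> norm_num
  · rw [H_fderiv, A_apply]
    ext <;> simp only [eu, Prod.smul_mk, smul_eq_mul] <;> norm_num

theorem hlin_u : ∀ s : ℝ, |s| ≤ 1 / 100 → H (s • eu) = (100 * s) • eu := by
  intro s hs
  have h1 : |s * 100| ≤ 1 := by
    rw [abs_mul, abs_of_pos (by norm_num : (0 : ℝ) < 100)]; linarith
  rw [H_apply]
  simp only [eu, Prod.smul_mk, smul_eq_mul]
  rw [lin_of_abs h1]
  ext
  · simp only; ring
  · simp only; ring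

theorem hlin_s : ∀ s : ℝ, |s| ≤ 1 → H.symm (s • es) = (100000 * s) • es := by
  intro s hs
  rw [H_symm_apply]
  simp only [es, Prod.smul_mk, smul_eq_mul, mul_one]
  rw [lin_of_abs hs]
  ext
  · simp only; ring
  · simp only; ring

theorem eq_zero_of_geom {a C : ℝ} (h : ∀ k : ℕ, |a| * 2 ^ k ≤ C) : a = 0 := by
  by_contra hc
  have hp : 0 < |a| := abs_pos.mpr hc
  obtain ⟨k, hk⟩ := pow_unbounded_of_one_lt (C / |a|) (by norm_num : (1 : ℝ) < 2)
  rw [div_lt_iff₀ hp] at hk
  have := h k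
  linarith

theorem hloc_u (z : ℝ × ℝ) (hz : ∀ k, ‖H.symm^[k] z‖ ≤ 1 / 2) :
    ∃ s : ℝ, |s| ≤ 1 / 100 ∧ z = s • eu := by
  have hz' : ∀ k, |(H.symm^[k] z).1| ≤ 1 / 2 ∧ |(H.symm^[k] z).2| ≤ 1 / 2 := by
    intro k
    have := hz k
    rw [Prod.norm_def, max_le_iff] at this
    exact this
  have hstep : ∀ k, (H.symm^[k] z).2 - 100 * (H.symm^[k] z).1 =
      ((H.symm^[k + 1] z).2 - 100 * (H.symm^[k + 1] z).1) / 100000 := by
    intro k
    have h1 : H (H.symm^[k + 1] z) = H.symm^[k] z := by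
      rw [Function.iterate_succ_apply', H.apply_symm_apply]
    rw [← h1, H_apply]
    simp only
    rw [lin_of_abs (by linarith [(hz' (k + 1)).2])]
    ring
  have hv : ∀ k, |z.2 - 100 * z.1| * 2 ^ k ≤ |(H.symm^[k] z).2 - 100 * (H.symm^[k] z).1| := by
    intro k
    induction k with
    | zero => simp
    | succ k ih =>
      have h1 := hstep k
      have h2 : |(H.symm^[k] z).2 - 100 * (H.symm^[k] z).1| =
          |(H.symm^[k + 1] z).2 - 100 * (H.symm^[k + 1] z).1| / 100000 := by
        rw [h1, abs_div, abs_of_pos (by norm_num : (0 : ℝ) < 100000)]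
      have h3 := abs_nonneg ((H.symm^[k + 1] z).2 - 100 * (H.symm^[k + 1] z).1)
      rw [pow_succ]
      linarith
  have h0 : z.2 - 100 * z.1 = 0 := by
    apply eq_zero_of_geom (C := 51)
    intro k
    refine (hv k).trans ?_
    have h1 := abs_le.mp (hz' k).1
    have h2 := abs_le.mp (hz' k).2
    rw [abs_le]
    constructor <;> linarith
  refine ⟨z.1, ?_, ?_⟩
  · have h1 := abs_le.mp (hz' 0).2
    simp only [Function.iterate_zero, id_eq] at h1
    rw [abs_le]
    constructor <;> linarith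
  · ext
    · simp [eu]
    · simp only [eu, Prod.smul_mk, smul_eq_mul]; linarith

theorem hloc_s (z : ℝ × ℝ) (hz : ∀ k, ‖H.symm.symm^[k] z‖ ≤ 1 / 2) :
    ∃ s : ℝ, |s| ≤ 1 ∧ z = s • es := by
  rw [Equiv.symm_symm] at hz
  have hz' : ∀ k, |(H^[k] z).1| ≤ 1 / 2 ∧ |(H^[k] z).2| ≤ 1 / 2 := by
    intro k
    have := hz k
    rw [Prod.norm_def, max_le_iff] at this
    exact this
  have hstep : ∀ k, (H^[k + 1] z).2 - (H^[k + 1] z).1 / 100000 =
      100 * ((H^[k] z).2 - (H^[k] z).1 / 100000) := by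
    intro k
    rw [Function.iterate_succ_apply', H_apply]
    simp only
    rw [lin_of_abs (by linarith [(hz' k).2])]
    ring
  have hv : ∀ k, |z.2 - z.1 / 100000| * 2 ^ k ≤ |(H^[k] z).2 - (H^[k] z).1 / 100000| := by
    intro k
    induction k with
    | zero => simp
    | succ k ih =>
      rw [hstep k, abs_mul, abs_of_pos (by norm_num : (0 : ℝ) < 100), pow_succ]
      have h3 := abs_nonneg ((H^[k] z).2 - (H^[k] z).1 / 100000)
      linarith
  have h0 : z.2 - z.1 / 100000 = 0 := by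
    apply eq_zero_of_geom (C := 1)
    intro k
    refine (hv k).trans ?_
    have h1 := abs_le.mp (hz' k).1
    have h2 := abs_le.mp (hz' k).2
    rw [abs_le]
    constructor <;> linarith
  refine ⟨z.1, ?_, ?_⟩
  · have h1 := (hz' 0).1
    simp only [Function.iterate_zero, id_eq] at h1
    linarith
  · ext
    · simp [es]
    · simp only [es, Prod.smul_mk, smul_eq_mul]; linarith

/-- parametrization of the unstable manifold -/
noncomputable def gu : ℝ → ℝ × ℝ := crv H eu 100 (1 / 100)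
/-- parametrization of the stable manifold -/
noncomputable def gs : ℝ → ℝ × ℝ := crv H.symm es 100000 1

theorem gu_param : IsParam gu (Wu H 0) 0 :=
  crv_param (by norm_num) (by norm_num) eu_ne H_contDiff H_symm_contDiff hlin_u hloc_u

theorem gs_param : IsParam gs (Ws H 0) 0 := by
  have := crv_param (h := H.symm) (by norm_num) (by norm_num) es_ne H_symm_contDiff
    (by rw [Equiv.symm_symm]; exact H_contDiff) hlin_s hloc_s
  rw [Equiv.symm_symm] at this
  exact this

theorem gu_one {t : ℝ} (h : |t| ≤ 100) : gu t = (t, phi t - t / 100000) := by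
  unfold gu
  rw [crv_eq (n := 1) (by norm_num) (by norm_num) hlin_u (by norm_num; exact h),
    Function.iterate_one, H_apply]
  simp only [eu, Prod.smul_mk, smul_eq_mul, pow_one]
  have e : t / 100 * 100 = t := by ring
  rw [e]
  ext
  · rfl
  · simp only; ring

theorem gs_line {t : ℝ} (h : |t| ≤ 100000) : gs t = (t, t / 100000) := by
  unfold gs
  rw [crv_eq (n := 0) (by norm_num) (by norm_num) hlin_s (by norm_num; exact h),
    Function.iterate_zero]
  simp only [es, Prod.smul_mk, smul_eq_mul, pow_zero, id_eq]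
  ext
  · simp only; ring
  · simp only; ring

/-! ### the closure of the branch -/

/-- the forward invariant region -/
def Reg : Set (ℝ × ℝ) := {z | PosR z.1 z.2 ∨ NegR z.1 z.2}

theorem Reg_step {z : ℝ × ℝ} (h : z ∈ Reg) : H z ∈ Reg := by
  rcases h with h | h
  · exact pos_step h
  · exact Or.inr (neg_step h)

theorem Reg_iterate {z : ℝ × ℝ} (h : z ∈ Reg) (n : ℕ) : H^[n] z ∈ Reg := by
  induction n generalizing z with
  | zero => exact h
  | succ n ih => rw [Function.iterate_succ_apply]; exact ih (Reg_step h)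

theorem Reg_closed : IsClosed Reg := by
  have h1 : IsClosed {z : ℝ × ℝ | PosR z.1 z.2} := by
    unfold PosR
    refine IsClosed.and ?_ (IsClosed.and ?_ (IsClosed.and ?_ (IsClosed.and ?_ ?_))) <;>
      exact isClosed_le (by fun_prop) (by fun_prop)
  have h2 : IsClosed {z : ℝ × ℝ | NegR z.1 z.2} := by
    unfold NegR
    refine IsClosed.and ?_ (IsClosed.and ?_ (IsClosed.and ?_ ?_)) <;>
      exact isClosed_le (by fun_prop) (by fun_prop)
  exact h1.union h2

/-- the closure of the branch -/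
def K : Set (ℝ × ℝ) := closure (gu '' Ioi 0)

theorem branch_subset : gu '' Ioi 0 ⊆ Reg := by
  rintro _ ⟨t, ht, rfl⟩
  have ht0 : (0 : ℝ) < t := ht
  set n := ⌈|t| / (1 / 100)⌉₊ with hn
  have h1 := exists_n (κ := 100) (by norm_num) (by norm_num : (0 : ℝ) < 1 / 100) t (n := n) le_rfl
  unfold gu
  rw [crv_eq (by norm_num) (by norm_num) hlin_u h1.le]
  apply Reg_iterate
  left
  rw [abs_of_pos ht0] at h1
  have h2 : 0 < t / 100 ^ n := by positivity
  have h3 : t / 100 ^ n ≤ 1 := by
    rw [div_le_iff₀ (by positivity), one_mul]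
    rw [pow_succ] at h1
    linarith
  simp only [eu, Prod.smul_mk, smul_eq_mul, mul_one]
  refine ⟨h2.le, by linarith, by linarith, by linarith, by linarith⟩

theorem K_subset : K ⊆ Reg := closure_minimal branch_subset Reg_closed

theorem K_symm {z : ℝ × ℝ} (h : z ∈ K) : H.symm z ∈ K := by
  have h1 : MapsTo H.symm (gu '' Ioi 0) (gu '' Ioi 0) := by
    rintro _ ⟨t, ht, rfl⟩
    have ht0 : (0 : ℝ) < t := ht
    unfold gu
    rw [symm_crv (by norm_num) (by norm_num) hlin_u]
    exact ⟨t / 100, by rw [mem_Ioi]; positivity, rfl⟩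
  exact (h1.closure H_symm_contDiff.continuous) h

theorem K_symm_iterate {z : ℝ × ℝ} (h : z ∈ K) (n : ℕ) : H.symm^[n] z ∈ K := by
  induction n with
  | zero => exact h
  | succ n ih => rw [Function.iterate_succ_apply']; exact K_symm ih

/-- the sequence of second coordinates of the backward orbit -/
noncomputable def Y (z : ℝ × ℝ) (j : ℕ) : ℝ := (H.symm^[j] z).2

theorem Y_succ (z : ℝ × ℝ) (j : ℕ) : Y z (j + 1) = (H.symm^[j] z).1 := by
  unfold Y
  rw [Function.iterate_succ_apply', H_symm_apply]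

theorem Y_adm {z : ℝ × ℝ} (h : z ∈ K) : Adm (Y z) := by
  constructor
  · intro j
    have h1 : H (H.symm^[j + 1] z) = H.symm^[j] z := by
      rw [Function.iterate_succ_apply', H.apply_symm_apply]
    have h2 : Y z (j + 2) = (H.symm^[j + 1] z).1 := Y_succ z (j + 1)
    rw [h2]
    have h3 := congrArg Prod.snd h1
    rw [H_apply] at h3
    exact h3.symm
  · intro j
    rw [Y_succ]
    exact K_subset (K_symm_iterate h j)

theorem continuous_Y (j : ℕ) : Continuous (fun z => Y z j) :=
  continuous_snd.comp (H_symm_contDiff.continuous.iterate j)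

theorem continuous_Gam (M j : ℕ) : Continuous (fun z => Gam M (Y z) j) := by
  induction j with
  | zero => exact continuous_Y 0
  | succ j ih =>
    by_cases h : j + 1 ≤ M
    · simp only [Gam_rec _ h]
      exact (continuous_Y (j + 1)).add ((continuous_rho.comp (continuous_Y (j + 1))).mul
        (ih.sub (continuous_const.mul (continuous_Y (j + 1)))))
    · simp only [Gam_old _ (not_le.mp h)]
      exact continuous_psi.comp ((continuous_Y (j + 1)).prodMk ih)

theorem K_compact : IsCompact K := by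
  apply IsCompact.of_isClosed_subset (isCompact_Icc (a := ((-301 : ℝ), (-301 : ℝ)))
    (b := ((301 : ℝ), (301 : ℝ)))) isClosed_closure
  intro z hz
  rcases K_subset hz with ⟨h1, h2, h3, h4, h5⟩ | ⟨h1, h2, h3, h4⟩
  · exact ⟨⟨by simp only; linarith, by simp only; linarith⟩, ⟨h2, h5⟩⟩
  · exact ⟨⟨h1, h3⟩, ⟨h2, by simp only; linarith⟩⟩

theorem K_connected : IsConnected K :=
  (isConnected_Ioi.image gu gu_param.1.continuous.continuousOn).closure

theorem K_chainable : IsChainableContinuum K := by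
  have : CompactSpace K := isCompact_iff_compactSpace.mp K_compact
  have : ConnectedSpace K := isConnected_iff_connectedSpace.mp K_connected
  apply chainable_of_maps
  intro ε hε
  obtain ⟨M, N, hMN⟩ := fiber_small hε
  refine ⟨fun z => Gam M (Y z.1) N, (continuous_Gam M N).comp continuous_subtype_val, ?_⟩
  intro z z' h
  have h1 := hMN _ _ (Y_adm z.2) (Y_adm z'.2) h
  rw [Subtype.dist_eq, Prod.dist_eq, max_lt_iff, Real.dist_eq, Real.dist_eq]
  have e1 : ∀ w : ℝ × ℝ, Y w 1 = w.1 := fun w => Y_succ w 0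
  have e0 : ∀ w : ℝ × ℝ, Y w 0 = w.2 := fun w => rfl
  rw [e1, e1, e0, e0] at h1
  exact ⟨h1.2, h1.1⟩

/-! ### the tangency -/

/-- the linear form `y - x / 100000` -/
noncomputable def lf : ℝ × ℝ →L[ℝ] ℝ :=
  ContinuousLinearMap.snd ℝ ℝ ℝ - (1 / 100000 : ℝ) • ContinuousLinearMap.fst ℝ ℝ ℝ

theorem lf_apply (z : ℝ × ℝ) : lf z = z.2 - 1 / 100000 * z.1 := by
  simp [lf]

theorem gs_near : ∀ᶠ s in 𝓝 (13 : ℝ), lf (gs s) = 0 := by
  have : ∀ᶠ s in 𝓝 (13 : ℝ), s ∈ Ioo (12 : ℝ) 14 := Ioo_mem_nhds (by norm_num) (by norm_num)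
  filter_upwards [this] with s hs
  rw [gs_line (by rw [abs_le]; constructor <;> linarith [hs.1, hs.2]), lf_apply]
  simp only; ring

theorem gu_near {t : ℝ} (h1 : 12 ≤ t) (h2 : t ≤ 14) : lf (gu t) = -(t - 13) ^ 2 := by
  rw [gu_one (by rw [abs_le]; constructor <;> linarith), lf_apply]
  simp only
  rw [phi_p9 h1 h2]
  ring

theorem gu_13 : gu 13 = (13, 13 / 100000) := by
  rw [gu_one (by rw [abs_le]; constructor <;> norm_num)]
  ext
  · rfl
  · simp only
    rw [phi_p9 (by norm_num) (by norm_num)]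
    norm_num

theorem gs_13 : gs 13 = (13, 13 / 100000) :=
  gs_line (by rw [abs_le]; constructor <;> norm_num)

theorem meet : gu 13 = gs 13 := by rw [gu_13, gs_13]

theorem oneSided : OneSidedTangency gu gs 13 13 := by
  have h0 : lf (gs 13) = 0 := by
    rw [gs_13, lf_apply]; norm_num
  refine ⟨lf, ?_, ?_, 1, one_pos, ?_⟩
  · intro h
    have := congrArg (fun L => L ((0 : ℝ), (1 : ℝ))) h
    simp [lf_apply] at this
  · rw [h0]; exact gs_near
  · have : ∀ᶠ s in 𝓝 (13 : ℝ), s ∈ Ioo (12 : ℝ) 14 := Ioo_mem_nhds (by norm_num) (by norm_num)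
    filter_upwards [this] with t ht
    rw [gu_near ht.1.le ht.2.le, h0]
    ring

theorem not_transverse : ¬ TopTransverse gu gs 13 13 := by
  rintro ⟨D, -, hq, hI, U, V, ⟨u, hu, rfl⟩, ⟨v, hv, rfl⟩, hne, -, hcross⟩
  set I := arcDomain gs 13 D with hIdef
  set S := D \ gs '' I with hS
  -- a ball in which the arc is contained in the line
  have hfar : ∃ r : ℝ, 0 < r ∧ ∀ s ∈ I, dist (gs s) (gs 13) < r → lf (gs s) = 0 := by
    set J := I \ Ioo (12 : ℝ) 14 with hJ
    have hJc : IsCompact J := hI.diff isOpen_Ioo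
    rcases J.eq_empty_or_nonempty with he | hJne
    · refine ⟨1, one_pos, fun s hs _ => ?_⟩
      have : s ∈ Ioo (12 : ℝ) 14 := by
        by_contra hc
        have : s ∈ J := ⟨hs, hc⟩
        rw [he] at this
        exact this
      rw [gs_line (by rw [abs_le]; constructor <;> linarith [this.1, this.2]), lf_apply]
      simp only; ring
    · have hcont : Continuous (fun s => dist (gs s) (gs 13)) :=
        gs_param.1.continuous.dist continuous_const
      obtain ⟨s₀, hs₀, hmin⟩ := hJc.exists_isMinOn hJne hcont.continuousOn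
      refine ⟨dist (gs s₀) (gs 13), ?_, fun s hs hd => ?_⟩
      · rw [dist_pos]
        intro h
        have := gs_param.2.1 h
        rw [this] at hs₀
        exact hs₀.2 ⟨by norm_num, by norm_num⟩
      · have : s ∈ Ioo (12 : ℝ) 14 := by
          by_contra hc
          exact absurd (hmin (⟨hs, hc⟩ : s ∈ J)) (not_le.mpr hd)
        rw [gs_line (by rw [abs_le]; constructor <;> linarith [this.1, this.2]), lf_apply]
        simp only; ring
  obtain ⟨r, hr, hline⟩ := hfar
  obtain ⟨r', hr', hball⟩ := Metric.isOpen_iff.mp isOpen_interior _ hq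
  set ρ := min r r' with hρ
  have hρ0 : 0 < ρ := lt_min hr hr'
  -- the lower half of the ball
  set B := Metric.ball (gs 13) ρ ∩ {z | lf z < 0} with hB
  have hBS : B ⊆ S := by
    rintro z ⟨hz1, hz2⟩
    refine ⟨interior_subset (hball (Metric.ball_subset_ball (min_le_right _ _) hz1)), ?_⟩
    rintro ⟨s, hs, rfl⟩
    have := hline s hs (lt_of_lt_of_le hz1 (min_le_left _ _))
    rw [mem_ofPred_eq] at hz2
    linarith
  have hBc : IsPreconnected B := by
    apply Convex.isPreconnected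
    exact (convex_ball _ _).inter (convex_halfSpace_lt lf.isLinear 0)
  -- parameters close to 13 are in B
  have hnear : ∃ δ : ℝ, 0 < δ ∧ ∀ t ∈ Ioo (13 - δ) (13 + δ), t ≠ 13 → gu t ∈ B := by
    have h1 : ∀ᶠ t in 𝓝 (13 : ℝ), gu t ∈ Metric.ball (gs 13) ρ := by
      rw [← meet]
      exact gu_param.1.continuous.continuousAt.eventually (Metric.ball_mem_nhds _ hρ0)
    have h2 : ∀ᶠ t in 𝓝 (13 : ℝ), t ∈ Ioo (12 : ℝ) 14 := Ioo_mem_nhds (by norm_num) (by norm_num)
    obtain ⟨δ, hδ, hδ'⟩ := Metric.eventually_nhds_iff.mp (h1.and h2)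
    refine ⟨δ, hδ, fun t ht hne => ?_⟩
    have h3 : dist t 13 < δ := by
      rw [Real.dist_eq, abs_lt]; constructor <;> linarith [ht.1, ht.2]
    obtain ⟨h4, h5⟩ := hδ' h3
    refine ⟨h4, ?_⟩
    rw [mem_ofPred_eq, gu_near h5.1.le h5.2.le]
    have : 0 < (t - 13) ^ 2 := by
      have : t - 13 ≠ 0 := sub_ne_zero.mpr hne
      positivity
    linarith
  obtain ⟨δ, hδ, hδ'⟩ := hnear
  obtain ⟨⟨t, ht, htU⟩, ⟨t', ht', htV⟩⟩ := hcross δ hδ
  have h13 : (13 : ℝ) ∈ I := by
    have h1 : (13 : ℝ) ∈ gs ⁻¹' D := (interior_subset hq : gs 13 ∈ D)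
    exact mem_connectedComponentIn h1
  have hnot : ∀ s, gu s ∈ S → s ≠ 13 := by
    rintro s hs rfl
    apply hs.2
    rw [meet]
    exact ⟨13, h13, rfl⟩
  have hB1 := hδ' t ht (hnot t (connectedComponentIn_subset _ _ htU))
  have hB2 := hδ' t' ht' (hnot t' (connectedComponentIn_subset _ _ htV))
  have hsub := hBc.subset_connectedComponentIn hB1 hBS
  have e1 := connectedComponentIn_eq htU
  have e2 := connectedComponentIn_eq htV
  have e3 := connectedComponentIn_eq (hsub hB2)
  apply hne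
  rw [e1, e2, e3]

end Pool.Agent.MP_fe4422_gt
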