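import Mathlib

/-!
# The one-dimensional profile of the Henon-like map

`phi` is a smooth function `ℝ → ℝ`, linear with slope `L = 100.00001` on `[-1,1]`, with a plateau at
height `L` on `[2,8]`, linear with slope `-L` on `[9,11]`, equal to `y/50000 - (y-13)^2` on `[12,14]`
and constant `-L` on `(-∞,-2]` and `[15,∞)`.
-/

namespace Pool.Agent.MP_fe4422_gt

open Real
open scoped ContDiff

/-- the profile -/
noncomputable def phi (y : ℝ) : ℝ :=
  (1 - smoothTransition (y + 2)) * (-(10000001 / 100000)) + smoothTransition (y + 2) *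
    ((1 - smoothTransition (y - 1)) * (10000001 / 100000 * y) + smoothTransition (y - 1) *
      ((1 - smoothTransition (y - 8)) * (10000001 / 100000) + smoothTransition (y - 8) *
        ((1 - smoothTransition (y - 11)) * (10000001 / 100000 * (10 - y)) +
          smoothTransition (y - 11) *
          ((1 - smoothTransition (y - 14)) * (y / 50000 - (y - 13) ^ 2) +
            smoothTransition (y - 14) * (-(10000001 / 100000))))))

theorem phi_contDiff : ContDiff ℝ ∞ phi := by
  have h : ∀ c : ℝ, ContDiff ℝ ∞ (fun y : ℝ => smoothTransition (y - c)) := fun c =>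
    Real.smoothTransition.contDiff.comp (contDiff_id.sub contDiff_const)
  have h2 : ContDiff ℝ ∞ (fun y : ℝ => smoothTransition (y + 2)) :=
    Real.smoothTransition.contDiff.comp (contDiff_id.add contDiff_const)
  have h1 := h 1
  have h8 := h 8
  have h11 := h 11
  have h14 := h 14
  unfold phi
  fun_prop

theorem blend_mem {s a c lo hi : ℝ} (hs0 : 0 ≤ s) (hs1 : s ≤ 1) (ha : lo ≤ a) (ha' : a ≤ hi)
    (hc : lo ≤ c) (hc' : c ≤ hi) : lo ≤ (1 - s) * a + s * c ∧ (1 - s) * a + s * c ≤ hi := by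
  constructor <;> nlinarith

theorem S0 {t : ℝ} (h : t ≤ 0) : smoothTransition t = 0 := Real.smoothTransition.zero_of_nonpos h
theorem S1 {t : ℝ} (h : 1 ≤ t) : smoothTransition t = 1 := Real.smoothTransition.one_of_one_le h
theorem Sn (t : ℝ) : 0 ≤ smoothTransition t := Real.smoothTransition.nonneg t
theorem Sl (t : ℝ) : smoothTransition t ≤ 1 := Real.smoothTransition.le_one t

theorem phi_p1 {y : ℝ} (h : y ≤ -2) : phi y = -(10000001 / 100000) := by
  unfold phi
  rw [S0 (by linarith : y + 2 ≤ 0)]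
  ring

theorem phi_p2 {y : ℝ} (h : -2 ≤ y) (h' : y ≤ -1) :
    -(2 * (10000001 / 100000)) ≤ phi y ∧ phi y ≤ -(10000001 / 100000) := by
  unfold phi
  rw [S0 (by linarith : y - 1 ≤ 0)]
  have := blend_mem (Sn (y + 2)) (Sl (y + 2)) (a := -(10000001 / 100000))
    (c := 10000001 / 100000 * y) (lo := -(2 * (10000001 / 100000))) (hi := -(10000001 / 100000))
    (by norm_num) (by norm_num) (by linarith) (by linarith)
  constructor
  · linarith [this.1]
  · linarith [this.2]

theorem phi_p3 {y : ℝ} (h : -1 ≤ y) (h' : y ≤ 1) : phi y = 10000001 / 100000 * y := by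
  unfold phi
  rw [S1 (by linarith : 1 ≤ y + 2), S0 (by linarith : y - 1 ≤ 0)]
  ring

theorem phi_p4 {y : ℝ} (h : 1 ≤ y) (h' : y ≤ 2) :
    10000001 / 100000 ≤ phi y ∧ phi y ≤ 10000001 / 100000 * y := by
  unfold phi
  rw [S1 (by linarith : 1 ≤ y + 2), S0 (by linarith : y - 8 ≤ 0)]
  have := blend_mem (Sn (y - 1)) (Sl (y - 1)) (a := 10000001 / 100000 * y)
    (c := 10000001 / 100000) (lo := 10000001 / 100000) (hi := 10000001 / 100000 * y)
    (by linarith) (by linarith) (by linarith) (by linarith)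
  constructor
  · linarith [this.1]
  · linarith [this.2]

theorem phi_p5 {y : ℝ} (h : 2 ≤ y) (h' : y ≤ 8) : phi y = 10000001 / 100000 := by
  unfold phi
  rw [S1 (by linarith : 1 ≤ y + 2), S1 (by linarith : 1 ≤ y - 1), S0 (by linarith : y - 8 ≤ 0)]
  ring

theorem phi_p6 {y : ℝ} (h : 8 ≤ y) (h' : y ≤ 9) :
    10000001 / 100000 ≤ phi y ∧ phi y ≤ 2 * (10000001 / 100000) := by
  unfold phi
  rw [S1 (by linarith : 1 ≤ y + 2), S1 (by linarith : 1 ≤ y - 1), S0 (by linarith : y - 11 ≤ 0)]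
  have := blend_mem (Sn (y - 8)) (Sl (y - 8)) (a := 10000001 / 100000)
    (c := 10000001 / 100000 * (10 - y)) (lo := 10000001 / 100000)
    (hi := 2 * (10000001 / 100000))
    (by linarith) (by linarith) (by linarith) (by linarith)
  constructor
  · linarith [this.1]
  · linarith [this.2]

theorem phi_p7 {y : ℝ} (h : 9 ≤ y) (h' : y ≤ 11) : phi y = 10000001 / 100000 * (10 - y) := by
  unfold phi
  rw [S1 (by linarith : 1 ≤ y + 2), S1 (by linarith : 1 ≤ y - 1), S1 (by linarith : 1 ≤ y - 8),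
    S0 (by linarith : y - 11 ≤ 0)]
  ring

theorem phi_p8 {y : ℝ} (h : 11 ≤ y) (h' : y ≤ 12) :
    -(2 * (10000001 / 100000)) ≤ phi y ∧ phi y ≤ -(1 / 2) := by
  unfold phi
  rw [S1 (by linarith : 1 ≤ y + 2), S1 (by linarith : 1 ≤ y - 1), S1 (by linarith : 1 ≤ y - 8),
    S0 (by linarith : y - 14 ≤ 0)]
  have := blend_mem (Sn (y - 11)) (Sl (y - 11)) (a := 10000001 / 100000 * (10 - y))
    (c := y / 50000 - (y - 13) ^ 2) (lo := -(2 * (10000001 / 100000)))
    (hi := -(1 / 2))
    (by linarith) (by linarith) (by nlinarith) (by nlinarith)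
  constructor
  · linarith [this.1]
  · linarith [this.2]

theorem phi_p9 {y : ℝ} (h : 12 ≤ y) (h' : y ≤ 14) : phi y = y / 50000 - (y - 13) ^ 2 := by
  unfold phi
  rw [S1 (by linarith : 1 ≤ y + 2), S1 (by linarith : 1 ≤ y - 1), S1 (by linarith : 1 ≤ y - 8),
    S1 (by linarith : 1 ≤ y - 11), S0 (by linarith : y - 14 ≤ 0)]
  ring

theorem phi_p10 {y : ℝ} (h : 14 ≤ y) (h' : y ≤ 15) :
    -(10000001 / 100000) ≤ phi y ∧ phi y ≤ -(1 / 2) := by
  unfold phi
  rw [S1 (by linarith : 1 ≤ y + 2), S1 (by linarith : 1 ≤ y - 1), S1 (by linarith : 1 ≤ y - 8),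
    S1 (by linarith : 1 ≤ y - 11)]
  have := blend_mem (Sn (y - 14)) (Sl (y - 14)) (a := y / 50000 - (y - 13) ^ 2)
    (c := -(10000001 / 100000)) (lo := -(10000001 / 100000))
    (hi := -(1 / 2))
    (by nlinarith) (by nlinarith) (by linarith) (by linarith)
  constructor
  · linarith [this.1]
  · linarith [this.2]

theorem phi_p11 {y : ℝ} (h : 15 ≤ y) : phi y = -(10000001 / 100000) := by
  unfold phi
  rw [S1 (by linarith : 1 ≤ y + 2), S1 (by linarith : 1 ≤ y - 1), S1 (by linarith : 1 ≤ y - 8),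
    S1 (by linarith : 1 ≤ y - 11), S1 (by linarith : 1 ≤ y - 14)]
  ring

/-- case split over the regions -/
theorem phi_cases (P : ℝ → Prop) (y : ℝ) (h1 : y ≤ -2 → P y) (h2 : -2 ≤ y → y ≤ -1 → P y)
    (h3 : -1 ≤ y → y ≤ 1 → P y) (h4 : 1 ≤ y → y ≤ 2 → P y) (h5 : 2 ≤ y → y ≤ 8 → P y)
    (h6 : 8 ≤ y → y ≤ 9 → P y) (h7 : 9 ≤ y → y ≤ 11 → P y) (h8 : 11 ≤ y → y ≤ 12 → P y)
    (h9 : 12 ≤ y → y ≤ 14 → P y) (h10 : 14 ≤ y → y ≤ 15 → P y) (h11 : 15 ≤ y → P y) : P y := by
  rcases le_total y (-2) with h | h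
  · exact h1 h
  rcases le_total y (-1) with h' | h'
  · exact h2 h h'
  rcases le_total y 1 with h | h
  · exact h3 h' h
  rcases le_total y 2 with h' | h'
  · exact h4 h h'
  rcases le_total y 8 with h | h
  · exact h5 h' h
  rcases le_total y 9 with h' | h'
  · exact h6 h h'
  rcases le_total y 11 with h | h
  · exact h7 h' h
  rcases le_total y 12 with h' | h'
  · exact h8 h h'
  rcases le_total y 14 with h | h
  · exact h9 h' h
  rcases le_total y 15 with h' | h'
  · exact h10 h h'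
  exact h11 h'

theorem phi_bound (y : ℝ) : -(2 * (10000001 / 100000)) ≤ phi y ∧
    phi y ≤ 2 * (10000001 / 100000) := by
  refine phi_cases (fun y => -(2 * (10000001 / 100000)) ≤ phi y ∧
    phi y ≤ 2 * (10000001 / 100000)) y ?_ ?_ ?_ ?_ ?_ ?_ ?_ ?_ ?_ ?_ ?_
  · intro h; simp only [phi_p1 h]; norm_num
  · intro h h'; have := phi_p2 h h'; exact ⟨this.1, by linarith [this.2]⟩
  · intro h h'; simp only [phi_p3 h h']; constructor <;> linarith
  · intro h h'; have := phi_p4 h h'; exact ⟨by linarith [this.1], by linarith [this.2]⟩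
  · intro h h'; simp only [phi_p5 h h']; norm_num
  · intro h h'; have := phi_p6 h h'; exact ⟨by linarith [this.1], by linarith [this.2]⟩
  · intro h h'; simp only [phi_p7 h h']; constructor <;> linarith
  · intro h h'; have := phi_p8 h h'; exact ⟨by linarith [this.1], by linarith [this.2]⟩
  · intro h h'; simp only [phi_p9 h h']; constructor <;> nlinarith
  · intro h h'; have := phi_p10 h h'; exact ⟨by linarith [this.1], by linarith [this.2]⟩
  · intro h; simp only [phi_p11 h]; norm_num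

theorem phi_le_lin {y : ℝ} (h0 : 0 ≤ y) : phi y ≤ 10000001 / 100000 * y := by
  revert h0
  refine phi_cases (fun y => 0 ≤ y → phi y ≤ 10000001 / 100000 * y) y
    ?_ ?_ ?_ ?_ ?_ ?_ ?_ ?_ ?_ ?_ ?_
  · intro h h0; linarith
  · intro h h' h0; linarith
  · intro h h' h0; rw [phi_p3 h h']
  · intro h h' h0; exact (phi_p4 h h').2
  · intro h h' h0; rw [phi_p5 h h']; linarith
  · intro h h' h0; linarith [(phi_p6 h h').2]
  · intro h h' h0; rw [phi_p7 h h']; linarith
  · intro h h' h0; linarith [(phi_p8 h h').2]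
  · intro h h' h0; rw [phi_p9 h h']; nlinarith
  · intro h h' h0; linarith [(phi_p10 h h').2]
  · intro h h0; rw [phi_p11 h]; linarith

/-- beyond the crossing point the profile stays below the line of slope `1/50000` -/
theorem phi_exit {y : ℝ} (h9 : 9 ≤ y) (hc : 10000001 / 100000 * (10 - y) ≤ y / 50000) :
    phi y ≤ y / 50000 := by
  revert h9 hc
  refine phi_cases (fun y => 9 ≤ y → 10000001 / 100000 * (10 - y) ≤ y / 50000 →
    phi y ≤ y / 50000) y ?_ ?_ ?_ ?_ ?_ ?_ ?_ ?_ ?_ ?_ ?_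
  · intro h h0; linarith
  · intro h h' h0; linarith
  · intro h h' h0; linarith
  · intro h h' h0; linarith
  · intro h h' h0; linarith
  · intro h h' h0 hc
    have : y = 9 := by linarith
    subst this
    linarith
  · intro h h' h0 hc; rw [phi_p7 h h']; exact hc
  · intro h h' h0 hc; linarith [(phi_p8 h h').2]
  · intro h h' h0 hc; rw [phi_p9 h h']; nlinarith
  · intro h h' h0 hc; linarith [(phi_p10 h h').2]
  · intro h h0 hc; rw [phi_p11 h]; linarith

theorem phi_C {y : ℝ} (h : 1 / 2 ≤ y) (h' : y ≤ 19 / 2) : 50 ≤ phi y := by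
  revert h h'
  refine phi_cases (fun y => 1 / 2 ≤ y → y ≤ 19 / 2 → 50 ≤ phi y) y
    ?_ ?_ ?_ ?_ ?_ ?_ ?_ ?_ ?_ ?_ ?_
  · intro h h0 h1; linarith
  · intro h h' h0 h1; linarith
  · intro h h' h0 h1; rw [phi_p3 h h']; linarith
  · intro h h' h0 h1; linarith [(phi_p4 h h').1]
  · intro h h' h0 h1; rw [phi_p5 h h']; norm_num
  · intro h h' h0 h1; linarith [(phi_p6 h h').1]
  · intro h h' h0 h1; rw [phi_p7 h h']; linarith
  · intro h h' h0 h1; linarith
  · intro h h' h0 h1; linarith
  · intro h h' h0 h1; linarith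
  · intro h h0 h1; linarith

theorem phi_neg {y : ℝ} (h : y ≤ -(1 / 10)) : phi y ≤ -10 := by
  rcases le_total y (-2) with h1 | h1
  · rw [phi_p1 h1]; norm_num
  rcases le_total y (-1) with h2 | h2
  · linarith [(phi_p2 h1 h2).2]
  · rw [phi_p3 h2 (by linarith)]; linarith

theorem phi_S {y : ℝ} (h : y ≤ -1) : phi y ≤ -100 := by
  rcases le_total y (-2) with h1 | h1
  · rw [phi_p1 h1]; norm_num
  · linarith [(phi_p2 h1 h).2]

/-- a Lipschitz constant on the relevant interval -/
theorem phi_lip : ∃ C : ℝ, 1 ≤ C ∧ ∀ x y : ℝ, |x| ≤ 301 → |y| ≤ 301 →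
    |phi x - phi y| ≤ C * |x - y| := by
  have hd : ContinuousOn (deriv phi) (Set.Icc (-301) 301) :=
    ((phi_contDiff.continuous_deriv (by simp))).continuousOn
  obtain ⟨C, hC⟩ := (isCompact_Icc.image_of_continuousOn hd).isBounded.exists_norm_le
  refine ⟨max 1 C, le_max_left _ _, fun x y hx hy => ?_⟩
  have hdiff : Differentiable ℝ phi := phi_contDiff.differentiable (by simp)
  have := (convex_Icc (-301 : ℝ) 301).norm_image_sub_le_of_norm_deriv_le (f := phi)
    (C := max 1 C) (fun z _ => hdiff z)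
    (fun z hz => (hC _ ⟨z, hz, rfl⟩).trans (le_max_right _ _))
    (x := y) (y := x) (abs_le.mp hy) (abs_le.mp hx)
  simpa [Real.norm_eq_abs] using this

end Pool.Agent.MP_fe4422_gt
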