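import Pool.Agent.Lib.MP_fe4422_gt.Phi

/-!
# Admissible backward orbits and the fibre estimate

A point `z` of the closure of the unstable branch is encoded by the sequence `y j`, the second
coordinate of `f^{-j} z`.  For such sequences we define functions `Gam M y N` (continuous in `z`)
and show that two sequences with the same value of `Gam M · N` are close at the indices `0, 1`.
-/

namespace Pool.Agent.MP_fe4422_gt

/-- positive region of the plane -/
def PosR (x y : ℝ) : Prop := 0 ≤ x ∧ x ≤ 301 ∧ x / 100000 ≤ y ∧ y ≤ 100 * x ∧ y ≤ 301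

/-- negative region of the plane (below the line `y = x / 100000`, which contains the local stable
manifold of the origin) -/
def NegR (x y : ℝ) : Prop := -301 ≤ x ∧ x ≤ 301 ∧ -301 ≤ y ∧ y ≤ x / 100000

theorem neg_step {x y : ℝ} (h : NegR x y) : NegR y (phi y - x / 1000) := by
  obtain ⟨h1, h2, h3, h4⟩ := h
  have hb := phi_bound y
  refine ⟨h3, by linarith, by linarith [hb.1], ?_⟩
  rcases le_total (-1) y with hy | hy
  · rw [phi_p3 hy (by linarith)]
    linarith
  · linarith [phi_S hy]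

theorem pos_step {x y : ℝ} (h : PosR x y) :
    PosR y (phi y - x / 1000) ∨ NegR y (phi y - x / 1000) := by
  obtain ⟨h1, h2, h3, h4, h5⟩ := h
  have hb := phi_bound y
  have hy : 0 ≤ y := by linarith
  have hl := phi_le_lin hy
  rcases le_total (y / 100000) (phi y - x / 1000) with hc | hc
  · left
    exact ⟨hy, h5, hc, by linarith, by linarith [hb.2]⟩
  · right
    exact ⟨by linarith, h5, by linarith [hb.1], hc⟩

/-- admissible sequences -/
structure Adm (y : ℕ → ℝ) : Prop where
  recur : ∀ j, y j = phi (y (j + 1)) - y (j + 2) / 1000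
  reg : ∀ j, PosR (y (j + 1)) (y j) ∨ NegR (y (j + 1)) (y j)

namespace Adm

variable {y : ℕ → ℝ}

theorem bd (h : Adm y) (j : ℕ) : -301 ≤ y j ∧ y j ≤ 301 := by
  rcases h.reg j with ⟨h1, h2, h3, h4, h5⟩ | ⟨h1, h2, h3, h4⟩
  · exact ⟨by linarith, h5⟩
  · exact ⟨h3, by linarith⟩

theorem abs_bd (h : Adm y) (j : ℕ) : |y j| ≤ 301 := abs_le.mpr (h.bd j)

theorem neg_down (h : Adm y) (j : ℕ) (hn : NegR (y (j + 2)) (y (j + 1))) :
    NegR (y (j + 1)) (y j) := by
  have := neg_step hn
  rw [← h.recur j] at this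
  exact this

theorem not_neg_up (h : Adm y) {j k : ℕ} (hjk : j ≤ k) (hn : ¬ NegR (y (j + 1)) (y j)) :
    ¬ NegR (y (k + 1)) (y k) := by
  induction k, hjk using Nat.le_induction with
  | base => exact hn
  | succ k hk ih => exact fun h' => ih (h.neg_down k h')

theorem not_neg_of_gt {j : ℕ} (hj : 1 / 100 < y j) :
    ¬ NegR (y (j + 1)) (y j) := by
  rintro ⟨h1, h2, h3, h4⟩
  linarith

theorem pos_of_not_neg (h : Adm y) {j : ℕ} (hn : ¬ NegR (y (j + 1)) (y j)) :
    PosR (y (j + 1)) (y j) := (h.reg j).resolve_right hn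

/-- exit zone: values at least `10` occur only just before the negative region -/
theorem lt_ten (h : Adm y) {k : ℕ} (hn : ¬ NegR (y (k + 1)) (y k)) : y (k + 1) < 10 := by
  by_contra hc
  push Not at hc
  have hn' : ¬ NegR (y (k + 2)) (y (k + 1)) := not_neg_of_gt (by linarith)
  obtain ⟨h1, h2, h3, h4, h5⟩ := h.pos_of_not_neg hn'
  apply hn
  have hb := h.bd k
  have he := phi_exit (y := y (k + 1)) (by linarith) (by linarith)
  have hr := h.recur k
  refine ⟨by linarith, h5, hb.1, by linarith⟩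

theorem czone (h : Adm y) {k : ℕ} (h1 : 1 / 2 ≤ y (k + 1)) (h2 : y (k + 1) ≤ 19 / 2) :
    15 ≤ y k := by
  have := phi_C h1 h2
  have hb := h.bd (k + 2)
  have hr := h.recur k
  linarith

theorem after_big (h : Adm y) {k : ℕ} (h1 : 15 ≤ y (k + 1)) : y k ≤ -2 := by
  have := phi_p11 h1
  have hb := h.bd (k + 2)
  have hr := h.recur k
  linarith

theorem after_neg (h : Adm y) {k : ℕ} (h1 : y (k + 1) ≤ -(1 / 10)) : y k ≤ -2 := by
  have := phi_neg h1
  have hb := h.bd (k + 2)
  have hr := h.recur k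
  linarith

theorem neg_forever (h : Adm y) {k j : ℕ} (h1 : y k ≤ -(1 / 10)) (hj : j < k) : y j ≤ -2 := by
  induction k with
  | zero => omega
  | succ k ih =>
    have h2 := h.after_neg h1
    rcases Nat.lt_succ_iff_lt_or_eq.mp hj with h3 | h3
    · exact ih (by linarith) h3
    · rw [h3]; exact h2

theorem upper (h : Adm y) (j : ℕ) : y j ≤ 2 * (10000001 / 100000) := by
  by_cases hn : NegR (y (j + 2)) (y (j + 1))
  · obtain ⟨h1, h2, h3, h4⟩ := h.neg_down j hn
    linarith
  · obtain ⟨h1, h2, h3, h4, h5⟩ := h.pos_of_not_neg hn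
    have := (phi_bound (y (j + 1))).2
    have hr := h.recur j
    linarith

end Adm

/-! ### the cut-off functions -/

/-- `rho` is `1/L` near zero and vanishes for `|y| ≥ 1/4` -/
noncomputable def rho (y : ℝ) : ℝ := 100000 / 10000001 * max 0 (min 1 (2 - 8 * |y|))

/-- `chi` is `0` for `y ≤ 4` and `1` for `y ≥ 5` -/
noncomputable def chi (y : ℝ) : ℝ := max 0 (min 1 (y - 4))

/-- the blended inverse branches -/
noncomputable def psi (y t : ℝ) : ℝ :=
  (1 - chi y) * (100000 / 10000001 * t) + chi y * (10 - 100000 / 10000001 * t)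

theorem rho_zero {y : ℝ} (h : 1 / 4 ≤ |y|) : rho y = 0 := by
  unfold rho
  rw [min_eq_right (by linarith), max_eq_left (by linarith), mul_zero]

theorem rho_one {y : ℝ} (h : |y| ≤ 1 / 8) : rho y = 100000 / 10000001 := by
  unfold rho
  rw [min_eq_left (by linarith), max_eq_right (by norm_num), mul_one]

theorem rho_nonneg (y : ℝ) : 0 ≤ rho y := by
  unfold rho
  have := le_max_left 0 (min 1 (2 - 8 * |y|))
  positivity

theorem rho_le (y : ℝ) : rho y ≤ 100000 / 10000001 := by
  unfold rho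
  have : max 0 (min 1 (2 - 8 * |y|)) ≤ 1 := max_le (by norm_num) (min_le_left _ _)
  linarith

theorem rho_lip (x y : ℝ) : |rho x - rho y| ≤ 8 / 100 * |x - y| := by
  unfold rho
  have h1 : |max 0 (min 1 (2 - 8 * |x|)) - max 0 (min 1 (2 - 8 * |y|))| ≤
      |min 1 (2 - 8 * |x|) - min 1 (2 - 8 * |y|)| := by
    have := abs_max_sub_max_le_abs (min 1 (2 - 8 * |x|)) (min 1 (2 - 8 * |y|)) 0
    rw [max_comm 0, max_comm 0]
    exact this
  have h2 : |min 1 (2 - 8 * |x|) - min 1 (2 - 8 * |y|)| ≤ |(2 - 8 * |x|) - (2 - 8 * |y|)| := by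
    have := abs_min_sub_min_le_max 1 (2 - 8 * |x|) 1 (2 - 8 * |y|)
    simpa using this
  have h3 : |(2 - 8 * |x|) - (2 - 8 * |y|)| ≤ 8 * |x - y| := by
    have e : (2 - 8 * |x|) - (2 - 8 * |y|) = -(8 * (|x| - |y|)) := by ring
    rw [e, abs_neg, abs_mul, abs_of_pos (by norm_num : (0 : ℝ) < 8)]
    have := abs_abs_sub_abs_le_abs_sub x y
    linarith
  rw [← mul_sub, abs_mul, abs_of_pos (by norm_num : (0 : ℝ) < 100000 / 10000001)]
  have h4 := abs_nonneg (x - y)
  have h5 := h1.trans (h2.trans h3)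
  nlinarith [abs_nonneg (max 0 (min 1 (2 - 8 * |x|)) - max 0 (min 1 (2 - 8 * |y|)))]

theorem continuous_rho : Continuous rho := by
  unfold rho; fun_prop

theorem continuous_chi : Continuous chi := by
  unfold chi; fun_prop

theorem continuous_psi : Continuous (fun p : ℝ × ℝ => psi p.1 p.2) := by
  unfold psi
  have := continuous_chi
  fun_prop

theorem psi_low {y : ℝ} (t : ℝ) (h : y ≤ 4) : psi y t = 100000 / 10000001 * t := by
  unfold psi
  have : chi y = 0 := by
    unfold chi
    rw [min_eq_right (by linarith), max_eq_left (by linarith)]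
  rw [this]; ring

theorem psi_high {y : ℝ} (t : ℝ) (h : 5 ≤ y) : psi y t = 10 - 100000 / 10000001 * t := by
  unfold psi
  have : chi y = 1 := by
    unfold chi
    rw [min_eq_left (by linarith), max_eq_right (by norm_num)]
  rw [this]; ring

theorem chi_mid {y : ℝ} (h : 4 < y) (h' : y < 5) : chi y = y - 4 := by
  unfold chi
  rw [min_eq_right (by linarith), max_eq_right (by linarith)]

/-- in the middle zone `psi` lies strictly between the two branches -/
theorem psi_mid {y t : ℝ} (h : 4 < y) (h' : y < 5) (ht : 100000 / 10000001 * t < 5) :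
    100000 / 10000001 * t ≤ psi y t ∧ psi y t ≤ 10 - 100000 / 10000001 * t := by
  unfold psi
  rw [chi_mid h h']
  constructor <;> nlinarith

/-- the height functions -/
noncomputable def Gam (M : ℕ) (y : ℕ → ℝ) : ℕ → ℝ
  | 0 => y 0
  | j + 1 => if j + 1 ≤ M then y (j + 1) + rho (y (j + 1)) *
      (Gam M y j - 10000001 / 100000 * y (j + 1)) else psi (y (j + 1)) (Gam M y j)

theorem Gam_zero (M : ℕ) (y : ℕ → ℝ) : Gam M y 0 = y 0 := rfl

theorem Gam_rec {M : ℕ} (y : ℕ → ℝ) {j : ℕ} (h : j + 1 ≤ M) : Gam M y (j + 1) =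
    y (j + 1) + rho (y (j + 1)) * (Gam M y j - 10000001 / 100000 * y (j + 1)) := by
  rw [Gam, if_pos h]

theorem Gam_old {M : ℕ} (y : ℕ → ℝ) {j : ℕ} (h : M < j + 1) : Gam M y (j + 1) =
    psi (y (j + 1)) (Gam M y j) := by
  rw [Gam, if_neg (by omega)]

section recent

variable {M : ℕ} {y : ℕ → ℝ}

theorem rec_big {j : ℕ} (hj : j ≤ M) (h : 1 / 4 ≤ |y j|) : Gam M y j = y j := by
  cases j with
  | zero => rfl
  | succ j => rw [Gam_rec y hj, rho_zero h]; ring

theorem rec_small {j : ℕ} (hj : j + 1 ≤ M) (h : |y (j + 1)| ≤ 1 / 8) :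
    Gam M y (j + 1) = 100000 / 10000001 * Gam M y j := by
  rw [Gam_rec y hj, rho_one h]; ring

theorem lin_of_abs {t : ℝ} (h : |t| ≤ 1) : phi t = 10000001 / 100000 * t :=
  phi_p3 (abs_le.mp h).1 (abs_le.mp h).2

theorem rec_mid (ha : Adm y) {j : ℕ} (hj : j + 1 ≤ M) (h : 1 / 10 ≤ |y (j + 1)|) :
    Gam M y (j + 1) = y (j + 1) - rho (y (j + 1)) * (y (j + 2) / 1000) := by
  rcases le_or_gt (1 / 4) |y (j + 1)| with h1 | h1
  · rw [rec_big hj h1, rho_zero h1]; ring
  · have hr := ha.recur j
    rw [lin_of_abs (by linarith)] at hr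
    have hb := ha.bd (j + 2)
    have : 1 / 4 ≤ |y j| := by
      rcases le_total 0 (y (j + 1)) with h2 | h2
      · rw [abs_of_nonneg h2] at h
        rw [abs_of_nonneg (by linarith)]; linarith
      · rw [abs_of_nonpos h2] at h
        rw [abs_of_nonpos (by linarith)]; linarith
    rw [Gam_rec y hj, rec_big (by omega) this, hr]
    ring

theorem rec_close (ha : Adm y) {j : ℕ} (hj : j ≤ M) : |Gam M y j - y j| ≤ 1 / 100 := by
  induction j with
  | zero => simp [Gam_zero]
  | succ j ih =>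
    have hb := ha.bd (j + 2)
    rcases le_or_gt |y (j + 1)| (1 / 8) with h | h
    · have ih' := ih (by omega)
      rw [rec_small hj h]
      have hr := ha.recur j
      rw [lin_of_abs (by linarith)] at hr
      rw [abs_le] at ih' ⊢
      constructor <;> linarith
    · rw [rec_mid ha hj (by linarith)]
      have h1 := rho_nonneg (y (j + 1))
      have h2 := rho_le (y (j + 1))
      rw [abs_le]
      constructor <;> nlinarith

end recent

section old

variable {M : ℕ} {y : ℕ → ℝ}

theorem Gam_M_bd (ha : Adm y) : -302 ≤ Gam M y M ∧ Gam M y M ≤ 201 := by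
  have h1 := abs_le.mp (rec_close ha le_rfl : |Gam M y M - y M| ≤ 1 / 100)
  have h2 := ha.bd M
  have h3 := ha.upper M
  constructor <;> linarith

theorem Gam_old_bd (ha : Adm y) {j : ℕ} (hj : M ≤ j) : -302 ≤ Gam M y j ∧ Gam M y j ≤ 201 := by
  induction j, hj using Nat.le_induction with
  | base => exact Gam_M_bd ha
  | succ j hj ih =>
    rw [Gam_old y (by omega)]
    rcases le_or_gt (y (j + 1)) 4 with h | h
    · rw [psi_low _ h]; constructor <;> linarith
    rcases le_or_gt 5 (y (j + 1)) with h' | h'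
    · rw [psi_high _ h']; constructor <;> linarith
    · have := psi_mid h h' (t := Gam M y j) (by linarith)
      constructor <;> linarith [this.1, this.2]

/-- value at a low index -/
theorem low_val {j : ℕ} (hj : M ≤ j) (h : y (j + 1) ≤ 4) :
    Gam M y (j + 1) = 100000 / 10000001 * Gam M y j := by
  rw [Gam_old y (by omega), psi_low _ h]

theorem high_val {j : ℕ} (hj : M ≤ j) (h : 5 ≤ y (j + 1)) :
    Gam M y (j + 1) = 10 - 100000 / 10000001 * Gam M y j := by
  rw [Gam_old y (by omega), psi_high _ h]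

theorem mid_val (ha : Adm y) {j : ℕ} (hj : M ≤ j) (h : 4 < y (j + 1)) (h' : y (j + 1) < 5) :
    100000 / 10000001 * Gam M y j ≤ Gam M y (j + 1) ∧
    Gam M y (j + 1) ≤ 10 - 100000 / 10000001 * Gam M y j := by
  rw [Gam_old y (by omega)]
  have := Gam_old_bd ha hj
  exact psi_mid h h' (by linarith)

/-- if `y k ≤ -2` for all `M ≤ k ≤ j` then `Gam` is negative there -/
theorem neg_val {j : ℕ} (hj : M ≤ j) (h : ∀ k, M ≤ k → k ≤ j → y k ≤ -2) : Gam M y j < 0 := by
  induction j, hj using Nat.le_induction with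
  | base =>
    have := h M le_rfl le_rfl
    rw [rec_big le_rfl (by rw [abs_of_nonpos (by linarith)]; linarith)]
    linarith
  | succ j hj ih =>
    have h1 := ih (fun k h2 h3 => h k h2 (by omega))
    have h2 := h (j + 1) (by omega) le_rfl
    rw [low_val hj (by linarith)]
    linarith

end old

/-- sink-bound at time `M` -/
def SB (M : ℕ) (y : ℕ → ℝ) : Prop := 15 ≤ y M ∨ y M ≤ -(1 / 10)

section mid

variable {M : ℕ} {y y' : ℕ → ℝ}

/-- what happens after a visit to the middle zone -/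
theorem mid_facts (ha : Adm y) {j : ℕ} (h : 4 < y (j + 1)) (h' : y (j + 1) < 5) :
    15 ≤ y j ∧ ∀ k, k < j → y k ≤ -2 := by
  have h1 : 15 ≤ y j := ha.czone (by linarith) (by linarith)
  refine ⟨h1, fun k hk => ?_⟩
  obtain ⟨i, rfl⟩ : ∃ i, j = i + 1 := ⟨j - 1, by omega⟩
  have h2 := ha.after_big h1
  rcases Nat.lt_succ_iff_lt_or_eq.mp hk with h3 | h3
  · exact ha.neg_forever (by linarith) h3
  · rw [h3]; exact h2

theorem mid_SB (ha : Adm y) {j : ℕ} (hj : M ≤ j) (h : 4 < y (j + 1)) (h' : y (j + 1) < 5) :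
    SB M y := by
  obtain ⟨h1, h2⟩ := mid_facts ha h h'
  rcases Nat.eq_or_lt_of_le hj with h3 | h3
  · left; rw [h3]; exact h1
  · right; linarith [h2 M h3]

theorem Gam_pos_of_mid (ha : Adm y) {j : ℕ} (hj : M ≤ j) (h : 4 < y (j + 1))
    (h' : y (j + 1) < 5) : 0 < Gam M y j := by
  obtain ⟨h1, h2⟩ := mid_facts ha h h'
  rcases Nat.eq_or_lt_of_le hj with h3 | h3
  · subst h3
    rw [rec_big le_rfl (by rw [abs_of_nonneg (by linarith)]; linarith)]
    linarith
  · obtain ⟨i, rfl⟩ : ∃ i, j = i + 1 := ⟨j - 1, by omega⟩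
    have hi : M ≤ i := by omega
    rw [high_val hi (by linarith)]
    have := Gam_old_bd ha hi
    linarith

/-- comparison going down to time `M` along negative values -/
theorem comp_down (ha' : Adm y') {i : ℕ} (hi : M ≤ i)
    (hz : ∀ k, M ≤ k → k ≤ i → y k ≤ -2) (hle : Gam M y' i ≤ Gam M y i) : y' M ≤ -2 := by
  induction i, hi using Nat.le_induction with
  | base =>
    have h1 := hz M le_rfl le_rfl
    rw [rec_big (y := y) le_rfl (by rw [abs_of_nonpos (by linarith)]; linarith)] at hle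
    have h2 := abs_le.mp (rec_close ha' le_rfl : |Gam M y' M - y' M| ≤ 1 / 100)
    have h3 : Gam M y' M = y' M :=
      rec_big le_rfl (by rw [abs_of_nonpos (by linarith)]; linarith)
    linarith
  | succ i hi ih =>
    have hneg : Gam M y (i + 1) < 0 := neg_val (by omega) hz
    have h1 := hz (i + 1) (by omega) le_rfl
    rw [low_val hi (by linarith : y (i + 1) ≤ 4)] at hle hneg
    have hb' := Gam_old_bd (M := M) ha' hi
    apply ih (fun k h2 h3 => hz k h2 (by omega))
    rcases le_or_gt (y' (i + 1)) 4 with h | h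
    · rw [low_val hi h] at hle
      linarith
    rcases le_or_gt 5 (y' (i + 1)) with h' | h'
    · rw [high_val hi h'] at hle
      linarith
    · have h4 := (mid_val ha' hi h h').1
      have h5 := Gam_pos_of_mid (M := M) ha' hi h h'
      linarith

/-- if one of two sequences with the same height is in the middle zone, both are sink-bound -/
theorem mid_both (ha : Adm y) (ha' : Adm y') {j : ℕ} (hj : M ≤ j) (h : 4 < y (j + 1))
    (h' : y (j + 1) < 5) (he : Gam M y (j + 1) = Gam M y' (j + 1)) : SB M y ∧ SB M y' := by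
  refine ⟨mid_SB ha hj h h', ?_⟩
  have hmv := mid_val ha hj h h'
  have hb' := Gam_old_bd (M := M) ha' hj
  have hb := Gam_old_bd (M := M) ha hj
  obtain ⟨hf1, hf2⟩ := mid_facts ha h h'
  by_cases hm : 4 < y' (j + 1) ∧ y' (j + 1) < 5
  · exact mid_SB ha' hj hm.1 hm.2
  -- the heights one step later are ordered
  have hge : Gam M y j ≤ Gam M y' j := by
    rcases le_or_gt (y' (j + 1)) 4 with h1 | h1
    · rw [low_val (y := y') hj h1] at he
      linarith [hmv.1]
    · have h2 : 5 ≤ y' (j + 1) := by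
        by_contra hc
        exact hm ⟨h1, not_le.mp hc⟩
      rw [high_val (y := y') hj h2] at he
      linarith [hmv.2]
  rcases Nat.eq_or_lt_of_le hj with h3 | h3
  · subst h3
    rw [rec_big (y := y) le_rfl (by rw [abs_of_nonneg (by linarith)]; linarith)] at hge
    have h2 := abs_le.mp (rec_close ha' le_rfl : |Gam M y' M - y' M| ≤ 1 / 100)
    have h4 : Gam M y' M = y' M :=
      rec_big le_rfl (by rw [abs_of_nonneg (by linarith)]; linarith)
    left; linarith
  · obtain ⟨i, rfl⟩ : ∃ i, j = i + 1 := ⟨j - 1, by omega⟩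
    have hi : M ≤ i := by omega
    have hz : ∀ k, M ≤ k → k ≤ i → y k ≤ -2 := fun k _ hk => hf2 k (by omega)
    have hneg := neg_val hi hz
    rw [high_val (y := y) hi (by linarith)] at hge
    have hb'' := Gam_old_bd (M := M) ha' hi
    have hle : Gam M y' i ≤ Gam M y i := by
      rcases le_or_gt (y' (i + 1)) 4 with h1 | h1
      · rw [low_val (y := y') hi h1] at hge
        linarith
      rcases le_or_gt 5 (y' (i + 1)) with h2 | h2
      · rw [high_val (y := y') hi h2] at hge
        linarith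
      · have h4 := (mid_val ha' hi h1 h2).2
        have h5 := Gam_pos_of_mid (M := M) ha' hi h1 h2
        linarith
    right
    linarith [comp_down ha' hi hz hle]

/-- one step of peeling at old times -/
theorem peel_old (ha : Adm y) (ha' : Adm y') {j : ℕ} (hj : M ≤ j)
    (he : Gam M y (j + 1) = Gam M y' (j + 1)) :
    (SB M y ∧ SB M y') ∨
    (((y (j + 1) ≤ 4 ∧ y' (j + 1) ≤ 4) ∨ (5 ≤ y (j + 1) ∧ 5 ≤ y' (j + 1))) ∧
      Gam M y j = Gam M y' j) := by
  by_cases hm : 4 < y (j + 1) ∧ y (j + 1) < 5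
  · exact Or.inl (mid_both ha ha' hj hm.1 hm.2 he)
  by_cases hm' : 4 < y' (j + 1) ∧ y' (j + 1) < 5
  · exact Or.inl (mid_both ha' ha hj hm'.1 hm'.2 he.symm).symm
  right
  have hb := Gam_old_bd (M := M) ha hj
  have hb' := Gam_old_bd (M := M) ha' hj
  rcases le_or_gt (y (j + 1)) 4 with h1 | h1 <;> rcases le_or_gt (y' (j + 1)) 4 with h2 | h2
  · refine ⟨Or.inl ⟨h1, h2⟩, ?_⟩
    rw [low_val hj h1, low_val hj h2] at he
    linarith
  · have h3 : 5 ≤ y' (j + 1) := by
      by_contra hc
      exact hm' ⟨h2, not_le.mp hc⟩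
    rw [low_val hj h1, high_val hj h3] at he
    linarith
  · have h3 : 5 ≤ y (j + 1) := by
      by_contra hc
      exact hm ⟨h1, not_le.mp hc⟩
    rw [high_val hj h3, low_val hj h2] at he
    linarith
  · have h3 : 5 ≤ y (j + 1) := by
      by_contra hc
      exact hm ⟨h1, not_le.mp hc⟩
    have h4 : 5 ≤ y' (j + 1) := by
      by_contra hc
      exact hm' ⟨h2, not_le.mp hc⟩
    refine ⟨Or.inr ⟨h3, h4⟩, ?_⟩
    rw [high_val hj h3, high_val hj h4] at he
    linarith

/-- the two sequences are in the same (low or high) zone at index `k` -/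
def Match (y y' : ℕ → ℝ) (k : ℕ) : Prop := (y k ≤ 4 ∧ y' k ≤ 4) ∨ (5 ≤ y k ∧ 5 ≤ y' k)

theorem peel_all (ha : Adm y) (ha' : Adm y') {N : ℕ} (hN : M ≤ N)
    (he : Gam M y N = Gam M y' N) :
    (SB M y ∧ SB M y') ∨ ((∀ k, M < k → k ≤ N → Match y y' k) ∧ Gam M y M = Gam M y' M) := by
  induction N, hN using Nat.le_induction with
  | base => exact Or.inr ⟨fun k h1 h2 => by omega, he⟩
  | succ j hj ih =>
    rcases peel_old ha ha' hj he with h | ⟨h1, h2⟩
    · exact Or.inl h
    · rcases ih h2 with h | ⟨h3, h4⟩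
      · exact Or.inl h
      · refine Or.inr ⟨fun k hk1 hk2 => ?_, h4⟩
        rcases Nat.lt_succ_iff_lt_or_eq.mp (Nat.lt_succ_of_le hk2) with h5 | h5
        · exact h3 k hk1 (by omega)
        · rw [h5]; exact h1

end mid

end Pool.Agent.MP_fe4422_gt
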